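import Mathlib
import Pool.Agent.H80.PinDefs

/-!
# The problem Partition
-/

set_option autoImplicit false

namespace Pool.Agent.H80.Pin2

open Computability

/-- encoding of a list of numbers over the alphabet `Computability.Γ'`: the binary digits of each
number, followed by a comma -/
def encodeNums (L : List ℕ) : List Γ' :=
  L.flatMap fun a => (encodeNat a).map Γ'.bit ++ [Γ'.comma]

/-- an instance of Partition: a list of positive integers -/
structure PartInst where
  /-- the numbers -/
  nums : List ℕ
  pos : ∀ a ∈ nums, 0 < a

/-- some set of the numbers has the same sum as its complement -/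
def PartInst.Solvable (P : PartInst) : Prop :=
  ∃ B : Finset (Fin P.nums.length), ∑ i ∈ B, P.nums.get i = ∑ i ∈ Bᶜ, P.nums.get i

/-- binary encoding of an instance of Partition -/
def PartInst.encode (P : PartInst) : List Γ' := encodeNums P.nums

end Pool.Agent.H80.Pin2
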