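import Mathlib
import Pool.Agent.H80.PinTM
import Pool.Agent.H80.PinDefs

/-!
# The machine for the reduction from Partition

Input: the binary digits of the numbers, each followed by a comma. With `N` = length of the input
plus `κ + 1`, the machine first writes `N` ones on the stack `R` and `N` marks on the stack `C`,
subtracts all numbers from `R`, and then writes the jobs on the output stack, the last one first.
-/

set_option autoImplicit false

namespace Pool.Agent.H80.Pin2

open Turing Computability Pool.Agent.H80.Pin

/-- the stacks of the machine -/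
inductive Stk
  | inp | A | R | T | C | D | out
  deriving DecidableEq

instance : Fintype Stk := ⟨{Stk.inp, Stk.A, Stk.R, Stk.T, Stk.C, Stk.D, Stk.out},
  by intro x; cases x <;> decide⟩

/-- alphabets of the stacks -/
@[reducible] def Sym : Stk → Type
  | Stk.inp => Γ'
  | Stk.A => Γ'
  | Stk.R => Bool
  | Stk.T => Bool
  | Stk.C => Unit
  | Stk.D => Unit
  | Stk.out => Γ'

instance : Fintype (Sym Stk.inp) := inferInstanceAs (Fintype Γ')

/-- labels -/
inductive Lab
  | cnt | ext | back | sub | subR | rst | ket | r2t | t2o | com | ful | ret | nxt | elt | fin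
  deriving DecidableEq

instance : Fintype Lab := ⟨{Lab.cnt, Lab.ext, Lab.back, Lab.sub, Lab.subR, Lab.rst, Lab.ket,
  Lab.r2t, Lab.t2o, Lab.com, Lab.ful, Lab.ret, Lab.nxt, Lab.elt, Lab.fin},
  by intro x; cases x <;> decide⟩

/-- internal state of the machine -/
structure St where
  x : Option Γ'
  y : Option Bool
  z : Option Unit
  c : Bool
  ph : Fin 4
  deriving DecidableEq, Fintype

/-- the initial state -/
def st0 : St := ⟨none, none, none, false, 0⟩

open TM2.Stmt in
/-- push `j` zeros on the output stack -/
def pushF (q : TM2.Stmt Sym Lab St) : ℕ → TM2.Stmt Sym Lab St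
  | 0 => q
  | j + 1 => push Stk.out (fun _ => Γ'.bit false) (pushF q j)

open TM2.Stmt in
/-- push `j` marks on `C` and `j` ones on `R` -/
def pushC (q : TM2.Stmt Sym Lab St) : ℕ → TM2.Stmt Sym Lab St
  | 0 => q
  | j + 1 => push Stk.C (fun _ => ()) (push Stk.R (fun _ => true) (pushC q j))

/-- the label after a job -/
def disp (ph : Fin 4) : Lab := if ph = 0 then Lab.ket else if ph = 3 then Lab.fin else Lab.nxt

/-- the phase after a job -/
def nph (ph : Fin 4) : Fin 4 := if ph = 0 then 1 else ph

open TM2.Stmt in
/-- the program -/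
def prog (κ : ℕ) : Lab → TM2.Stmt Sym Lab St
  | Lab.cnt =>
      pop Stk.inp (fun (s : St) x => ({ s with x := x } : St)) <|
      branch (fun (s : St) => s.x.isSome)
        (push Stk.A (fun (s : St) => (s.x.getD Γ'.comma : Γ')) <|
         push Stk.C (fun _ => ()) <|
         push Stk.R (fun _ => true) <| goto (fun _ => Lab.cnt))
        (goto (fun _ => Lab.ext))
  | Lab.ext => pushC (goto (fun _ => Lab.back)) (κ + 1)
  | Lab.back =>
      pop Stk.A (fun (s : St) x => ({ s with x := x } : St)) <|
      branch (fun (s : St) => s.x.isSome)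
        (push Stk.inp (fun (s : St) => (s.x.getD Γ'.comma : Γ')) <| goto (fun _ => Lab.back))
        (load (fun (s : St) => ({ s with c := false } : St)) <| goto (fun _ => Lab.sub))
  | Lab.sub =>
      pop Stk.inp (fun (s : St) x => ({ s with x := x } : St)) <|
      branch (fun (s : St) => s.x.isSome)
        (push Stk.A (fun (s : St) => (s.x.getD Γ'.comma : Γ')) <|
         branch (fun (s : St) => isBit s.x)
          (pop Stk.R (fun (s : St) y => ({ s with y := y } : St)) <|
           push Stk.T (fun (s : St) => (dig true (s.y.getD false) (bitOf s.x) s.c : Bool)) <|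
           load (fun (s : St) => ({ s with c := bor (s.y.getD false) (bitOf s.x) s.c } : St)) <|
           goto (fun _ => Lab.sub))
          (goto (fun _ => Lab.subR)))
        (load (fun (s : St) => ({ s with ph := 0 } : St)) <| goto (fun _ => Lab.ket))
  | Lab.subR =>
      pop Stk.R (fun (s : St) y => ({ s with y := y } : St)) <|
      branch (fun (s : St) => s.y.isSome)
        (push Stk.T (fun (s : St) => (dig true (s.y.getD false) false s.c : Bool)) <|
         load (fun (s : St) => ({ s with c := bor (s.y.getD false) false s.c } : St)) <|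
         goto (fun _ => Lab.subR))
        (goto (fun _ => Lab.rst))
  | Lab.rst =>
      pop Stk.T (fun (s : St) y => ({ s with y := y } : St)) <|
      branch (fun (s : St) => s.y.isSome)
        (push Stk.R (fun (s : St) => (s.y.getD false : Bool)) <| goto (fun _ => Lab.rst))
        (load (fun (s : St) => ({ s with c := false } : St)) <| goto (fun _ => Lab.sub))
  | Lab.ket =>
      push Stk.out (fun _ => Γ'.ket) <| goto (fun _ => Lab.r2t)
  | Lab.r2t =>
      pop Stk.R (fun (s : St) y => ({ s with y := y } : St)) <|
      branch (fun (s : St) => s.y.isSome)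
        (push Stk.T (fun (s : St) => (s.y.getD false : Bool)) <| goto (fun _ => Lab.r2t))
        (goto (fun _ => Lab.t2o))
  | Lab.t2o =>
      pop Stk.T (fun (s : St) y => ({ s with y := y } : St)) <|
      branch (fun (s : St) => s.y.isSome)
        (push Stk.R (fun (s : St) => (s.y.getD false : Bool)) <|
         push Stk.out (fun (s : St) => (Γ'.bit (s.y.getD false) : Γ')) <|
         goto (fun _ => Lab.t2o))
        (goto (fun _ => Lab.com))
  | Lab.com =>
      push Stk.out (fun _ => Γ'.comma) <|
      push Stk.out (fun _ => Γ'.bit true) <|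
      branch (fun (s : St) => s.ph = 0)
        (pushF (goto (fun _ => Lab.ful)) (κ + 1))
        (branch (fun (s : St) => s.ph = 3)
          (goto (fun _ => Lab.ful))
          (push Stk.out (fun _ => Γ'.bit false) <| goto (fun _ => Lab.ful)))
  | Lab.ful =>
      pop Stk.C (fun (s : St) z => ({ s with z := z } : St)) <|
      branch (fun (s : St) => s.z.isSome)
        (push Stk.D (fun _ => ()) <|
         push Stk.out (fun _ => Γ'.bit false) <| goto (fun _ => Lab.ful))
        (goto (fun _ => Lab.ret))
  | Lab.ret =>
      pop Stk.D (fun (s : St) z => ({ s with z := z } : St)) <|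
      branch (fun (s : St) => s.z.isSome)
        (push Stk.C (fun _ => ()) <| goto (fun _ => Lab.ret))
        (load (fun (s : St) => ({ s with ph := nph s.ph, c := decide (s.ph = 0) } : St)) <|
         goto (fun (s : St) => if s.c then Lab.ket else if s.ph = 3 then Lab.fin else Lab.nxt))
  | Lab.nxt =>
      push Stk.out (fun _ => Γ'.ket) <|
      pop Stk.A (fun (s : St) x => ({ s with x := x } : St)) <|
      branch (fun (s : St) => s.x.isSome)
        (goto (fun _ => Lab.elt))
        (push Stk.out (fun _ => Γ'.bit true) <|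
         load (fun (s : St) => ({ s with ph := 3 } : St)) <| goto (fun _ => Lab.com))
  | Lab.elt =>
      peek Stk.A (fun (s : St) x => ({ s with x := x } : St)) <|
      branch (fun (s : St) => isBit s.x)
        (pop Stk.A (fun (s : St) x => ({ s with x := x } : St)) <|
         push Stk.out (fun (s : St) => (s.x.getD Γ'.comma : Γ')) <|
         goto (fun _ => Lab.elt))
        (push Stk.out (fun _ => Γ'.bit false) <|
         load (fun (s : St) => ({ s with ph := 2 } : St)) <| goto (fun _ => Lab.com))
  | Lab.fin =>
      pop Stk.R (fun (s : St) y => ({ s with y := y, c := y.isNone } : St)) <|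
      pop Stk.C (fun (s : St) z => ({ s with z := z, c := s.c && z.isNone } : St)) <|
      branch (fun (s : St) => s.c)
        (load (fun _ => st0) <| halt)
        (goto (fun _ => Lab.fin))

/-- the machine -/
def tm (κ : ℕ) : FinTM2 where
  K := Stk
  k₀ := Stk.inp
  k₁ := Stk.out
  Γ := Sym
  Λ := Lab
  main := Lab.cnt
  σ := St
  initialState := st0
  m := prog κ

/-- stack contents -/
def stks (i A : List Γ') (R T : List Bool) (C D : List Unit) (o : List Γ') : ∀ k, List (Sym k)
  | Stk.inp => i
  | Stk.A => A
  | Stk.R => R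
  | Stk.T => T
  | Stk.C => C
  | Stk.D => D
  | Stk.out => o

section

variable (i i' A A' : List Γ') (R R' T T' : List Bool) (C C' D D' : List Unit) (o o' : List Γ')

theorem upd_inp : Function.update (stks i A R T C D o) Stk.inp i' = stks i' A R T C D o := by
  funext k; cases k <;> rfl
theorem upd_A : Function.update (stks i A R T C D o) Stk.A A' = stks i A' R T C D o := by
  funext k; cases k <;> rfl
theorem upd_R : Function.update (stks i A R T C D o) Stk.R R' = stks i A R' T C D o := by
  funext k; cases k <;> rfl
theorem upd_T : Function.update (stks i A R T C D o) Stk.T T' = stks i A R T' C D o := by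
  funext k; cases k <;> rfl
theorem upd_C : Function.update (stks i A R T C D o) Stk.C C' = stks i A R T C' D o := by
  funext k; cases k <;> rfl
theorem upd_D : Function.update (stks i A R T C D o) Stk.D D' = stks i A R T C D' o := by
  funext k; cases k <;> rfl
theorem upd_out : Function.update (stks i A R T C D o) Stk.out o' = stks i A R T C D o' := by
  funext k; cases k <;> rfl

theorem stks_inp : stks i A R T C D o Stk.inp = i := rfl
theorem stks_A : stks i A R T C D o Stk.A = A := rfl
theorem stks_R : stks i A R T C D o Stk.R = R := rfl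
theorem stks_T : stks i A R T C D o Stk.T = T := rfl
theorem stks_C : stks i A R T C D o Stk.C = C := rfl
theorem stks_D : stks i A R T C D o Stk.D = D := rfl
theorem stks_out : stks i A R T C D o Stk.out = o := rfl

end

attribute [simp] stks_inp stks_A stks_R stks_T stks_C stks_D stks_out upd_inp upd_A upd_R upd_T
  upd_C upd_D upd_out

/-- one step -/
abbrev stp (κ : ℕ) : TM2.Cfg Sym Lab St → Option (TM2.Cfg Sym Lab St) := TM2.step (prog κ)

/-- configuration -/
abbrev cf (l : Lab) (s : St) (i A : List Γ') (R T : List Bool) (C D : List Unit) (o : List Γ') :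
    TM2.Cfg Sym Lab St :=
  ⟨some l, s, stks i A R T C D o⟩

/-- `Rch n a b`: `n` steps lead from `a` to `b` -/
def Rch (κ n : ℕ) (a b : TM2.Cfg Sym Lab St) : Prop := (flip bind (stp κ))^[n] (some a) = some b

variable {κ : ℕ}

theorem Rch.refl (a : TM2.Cfg Sym Lab St) : Rch κ 0 a a := rfl

theorem Rch.trans {n m : ℕ} {a b c : TM2.Cfg Sym Lab St} (h1 : Rch κ n a b) (h2 : Rch κ m b c) :
    Rch κ (n + m) a c := by
  unfold Rch at *
  rw [add_comm, Function.iterate_add_apply, h1, h2]

theorem Rch.one {a b : TM2.Cfg Sym Lab St} (h : stp κ a = some b) : Rch κ 1 a b := h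

theorem Rch.cons {n : ℕ} {a b c : TM2.Cfg Sym Lab St} (h1 : stp κ a = some b)
    (h2 : Rch κ n b c) : Rch κ (n + 1) a c := by
  rw [add_comm]
  exact (Rch.one h1).trans h2

theorem replicate_comm {α : Type*} (n : ℕ) (a : α) (l : List α) :
    List.replicate n a ++ a :: l = a :: (List.replicate n a ++ l) := by
  rw [← List.cons_append, ← List.replicate_succ, List.replicate_succ', List.append_assoc]
  rfl

theorem cnt_loop : ∀ (l A : List Γ') (R : List Bool) (C : List Unit) (s : St), ∃ s',
    Rch κ (l.length + 1) (cf Lab.cnt s l A R [] C [] [])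
      (cf Lab.ext s' [] (l.reverse ++ A) (List.replicate l.length true ++ R) []
        (List.replicate l.length () ++ C) [] []) := by
  intro l
  induction l with
  | nil =>
    intro A R C s
    refine ⟨{ s with x := none }, Rch.one ?_⟩
    simp [stp, cf, TM2.step, prog, TM2.stepAux]
  | cons b l ih =>
    intro A R C s
    obtain ⟨s', hs'⟩ := ih (b :: A) (true :: R) (() :: C) { s with x := some b }
    refine ⟨s', ?_⟩
    rw [List.length_cons]
    refine Rch.cons (b := cf Lab.cnt { s with x := some b } l (b :: A) (true :: R) []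
      (() :: C) [] []) ?_ ?_
    · simp [stp, cf, TM2.step, prog, TM2.stepAux]
    · rw [replicate_comm, replicate_comm] at hs'
      simpa [List.replicate_succ] using hs'

theorem stepAux_pushC (q : TM2.Stmt Sym Lab St) (s : St) (i A : List Γ') (T : List Bool)
    (D : List Unit) (o : List Γ') : ∀ (j : ℕ) (R : List Bool) (C : List Unit),
    TM2.stepAux (pushC q j) s (stks i A R T C D o) =
      TM2.stepAux q s (stks i A (List.replicate j true ++ R) T (List.replicate j () ++ C) D o) := by
  intro j
  induction j with
  | zero => intro R C; simp [pushC]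
  | succ j ih =>
    intro R C
    have h1 := ih (true :: R) (() :: C)
    rw [replicate_comm, replicate_comm] at h1
    simp only [pushC, TM2.stepAux, upd_C, upd_R, stks_C, stks_R, List.replicate_succ,
      List.cons_append]
    exact h1

theorem stepAux_pushF (q : TM2.Stmt Sym Lab St) (s : St) (i A : List Γ') (R T : List Bool)
    (C D : List Unit) : ∀ (j : ℕ) (o : List Γ'),
    TM2.stepAux (pushF q j) s (stks i A R T C D o) =
      TM2.stepAux q s (stks i A R T C D (List.replicate j (Γ'.bit false) ++ o)) := by
  intro j
  induction j with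
  | zero => intro o; simp [pushF]
  | succ j ih =>
    intro o
    have h1 := ih (Γ'.bit false :: o)
    rw [replicate_comm] at h1
    simp only [pushF, TM2.stepAux, upd_out, stks_out, List.replicate_succ, List.cons_append]
    exact h1

theorem ext_step (s : St) (i A : List Γ') (R T : List Bool) (C D : List Unit) (o : List Γ') :
    Rch κ 1 (cf Lab.ext s i A R T C D o)
      (cf Lab.back s i A (List.replicate (κ + 1) true ++ R) T (List.replicate (κ + 1) () ++ C)
        D o) := by
  refine Rch.one ?_
  simp only [stp, cf, TM2.step, prog]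
  rw [stepAux_pushC]
  rfl

theorem back_loop (R : List Bool) (C : List Unit) : ∀ (A i : List Γ') (s : St), ∃ s',
    s'.c = false ∧ Rch κ (A.length + 1) (cf Lab.back s i A R [] C [] [])
      (cf Lab.sub s' (A.reverse ++ i) [] R [] C [] []) := by
  intro A
  induction A with
  | nil =>
    intro i s
    refine ⟨{ s with x := none, c := false }, rfl, Rch.one ?_⟩
    simp [stp, cf, TM2.step, prog, TM2.stepAux]
  | cons b A ih =>
    intro i s
    obtain ⟨s', h1, hs'⟩ := ih (b :: i) { s with x := some b }
    refine ⟨s', h1, ?_⟩
    rw [List.length_cons]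
    refine Rch.cons (b := cf Lab.back { s with x := some b } (b :: i) A R [] C [] []) ?_ ?_
    · simp [stp, cf, TM2.step, prog, TM2.stepAux]
    · simpa using hs'

theorem subR_loop (i A : List Γ') (C : List Unit) :
    ∀ (R T : List Bool) (s : St), ∃ s', Rch κ (R.length + 1)
      (cf Lab.subR s i A R T C [] [])
      (cf Lab.rst s' i A [] ((subL true [] R s.c).1.reverse ++ T) C [] []) := by
  intro R
  induction R with
  | nil =>
    intro T s
    refine ⟨{ s with y := none }, Rch.one ?_⟩
    simp [stp, cf, TM2.step, prog, TM2.stepAux, subL]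
  | cons y R ih =>
    intro T s
    obtain ⟨s', hs'⟩ := ih (dig true y false s.c :: T)
      { s with y := some y, c := bor y false s.c }
    refine ⟨s', ?_⟩
    rw [List.length_cons]
    refine Rch.cons (b := cf Lab.subR { s with y := some y, c := bor y false s.c } i A R
      (dig true y false s.c :: T) C [] []) ?_ ?_
    · simp [stp, cf, TM2.step, prog, TM2.stepAux]
    · simpa [subL] using hs'

theorem sub_loop (i : List Γ') (C : List Unit) :
    ∀ (p R T : List Bool) (A : List Γ') (s : St), ∃ s', ∃ n ≤ p.length + R.length + 2, Rch κ n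
      (cf Lab.sub s (p.map Γ'.bit ++ Γ'.comma :: i) A R T C [] [])
      (cf Lab.rst s' i (Γ'.comma :: ((p.map Γ'.bit).reverse ++ A)) []
        ((subL true p R s.c).1.reverse ++ T) C [] []) := by
  intro p
  induction p with
  | nil =>
    intro R T A s
    obtain ⟨s', hs'⟩ := subR_loop (κ := κ) i (Γ'.comma :: A) C R T { s with x := some Γ'.comma }
    refine ⟨s', R.length + 1 + 1, by rw [List.length_nil]; omega, ?_⟩
    refine Rch.cons (b := cf Lab.subR { s with x := some Γ'.comma } i (Γ'.comma :: A) R T C
      [] []) ?_ hs'
    simp [stp, cf, TM2.step, prog, TM2.stepAux, isBit]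
  | cons b p ih =>
    intro R T A s
    cases R with
    | nil =>
      obtain ⟨s', n, hn, hs'⟩ := ih [] (dig true false b s.c :: T) (Γ'.bit b :: A)
        { s with x := some (Γ'.bit b), y := none, c := bor false b s.c }
      refine ⟨s', n + 1, by simp at hn ⊢; omega, ?_⟩
      refine Rch.cons (b := cf Lab.sub
        { s with x := some (Γ'.bit b), y := none, c := bor false b s.c }
        (p.map Γ'.bit ++ Γ'.comma :: i) (Γ'.bit b :: A) [] (dig true false b s.c :: T) C
        [] []) ?_ ?_
      · simp [stp, cf, TM2.step, prog, TM2.stepAux, isBit, bitOf]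
      · simpa [subL] using hs'
    | cons y R =>
      obtain ⟨s', n, hn, hs'⟩ := ih R (dig true y b s.c :: T) (Γ'.bit b :: A)
        { s with x := some (Γ'.bit b), y := some y, c := bor y b s.c }
      refine ⟨s', n + 1, by simp at hn ⊢; omega, ?_⟩
      refine Rch.cons (b := cf Lab.sub
        { s with x := some (Γ'.bit b), y := some y, c := bor y b s.c }
        (p.map Γ'.bit ++ Γ'.comma :: i) (Γ'.bit b :: A) R (dig true y b s.c :: T) C
        [] []) ?_ ?_
      · simp [stp, cf, TM2.step, prog, TM2.stepAux, isBit, bitOf]
      · simpa [subL] using hs'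

theorem rst_loop (i A : List Γ') (C : List Unit) :
    ∀ (T R : List Bool) (s : St), ∃ s', s'.c = false ∧ Rch κ (T.length + 1)
      (cf Lab.rst s i A R T C [] []) (cf Lab.sub s' i A (T.reverse ++ R) [] C [] []) := by
  intro T
  induction T with
  | nil =>
    intro R s
    refine ⟨{ s with y := none, c := false }, rfl, Rch.one ?_⟩
    simp [stp, cf, TM2.step, prog, TM2.stepAux]
  | cons b T ih =>
    intro R s
    obtain ⟨s', h1, hs'⟩ := ih (b :: R) { s with y := some b }
    refine ⟨s', h1, ?_⟩
    rw [List.length_cons]
    refine Rch.cons (b := cf Lab.rst { s with y := some b } i A (b :: R) T C [] []) ?_ ?_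
    · simp [stp, cf, TM2.step, prog, TM2.stepAux]
    · simpa using hs'

theorem sub_end (A : List Γ') (R : List Bool) (C : List Unit) (s : St) : ∃ s', s'.ph = 0 ∧
    Rch κ 1 (cf Lab.sub s [] A R [] C [] []) (cf Lab.ket s' [] A R [] C [] []) := by
  refine ⟨{ s with x := none, ph := 0 }, rfl, Rch.one ?_⟩
  simp [stp, cf, TM2.step, prog, TM2.stepAux]

theorem ket_step (s : St) (i A : List Γ') (R T : List Bool) (C D : List Unit) (o : List Γ') :
    Rch κ 1 (cf Lab.ket s i A R T C D o) (cf Lab.r2t s i A R T C D (Γ'.ket :: o)) := by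
  refine Rch.one ?_
  simp [stp, cf, TM2.step, prog, TM2.stepAux]

theorem r2t_loop (i A : List Γ') (C D : List Unit) (o : List Γ') :
    ∀ (R T : List Bool) (s : St), ∃ s', s'.ph = s.ph ∧ Rch κ (R.length + 1)
      (cf Lab.r2t s i A R T C D o) (cf Lab.t2o s' i A [] (R.reverse ++ T) C D o) := by
  intro R
  induction R with
  | nil =>
    intro T s
    refine ⟨{ s with y := none }, rfl, Rch.one ?_⟩
    simp [stp, cf, TM2.step, prog, TM2.stepAux]
  | cons b R ih =>
    intro T s
    obtain ⟨s', h1, hs'⟩ := ih (b :: T) { s with y := some b }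
    refine ⟨s', h1, ?_⟩
    rw [List.length_cons]
    refine Rch.cons (b := cf Lab.r2t { s with y := some b } i A R (b :: T) C D o) ?_ ?_
    · simp [stp, cf, TM2.step, prog, TM2.stepAux]
    · simpa using hs'

theorem t2o_loop (i A : List Γ') (C D : List Unit) :
    ∀ (T R : List Bool) (o : List Γ') (s : St), ∃ s', s'.ph = s.ph ∧ Rch κ (T.length + 1)
      (cf Lab.t2o s i A R T C D o)
      (cf Lab.com s' i A (T.reverse ++ R) [] C D (T.reverse.map Γ'.bit ++ o)) := by
  intro T
  induction T with
  | nil =>
    intro R o s
    refine ⟨{ s with y := none }, rfl, Rch.one ?_⟩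
    simp [stp, cf, TM2.step, prog, TM2.stepAux]
  | cons b T ih =>
    intro R o s
    obtain ⟨s', h1, hs'⟩ := ih (b :: R) (Γ'.bit b :: o) { s with y := some b }
    refine ⟨s', h1, ?_⟩
    rw [List.length_cons]
    refine Rch.cons (b := cf Lab.t2o { s with y := some b } i A (b :: R) T C D
      (Γ'.bit b :: o)) ?_ ?_
    · simp [stp, cf, TM2.step, prog, TM2.stepAux]
    · simpa using hs'

/-- the number of additional zeros in the phases -/
def ez (κ : ℕ) (ph : Fin 4) : ℕ := if ph = 0 then κ + 1 else if ph = 3 then 0 else 1

theorem com_step (s : St) (i A : List Γ') (R T : List Bool) (C D : List Unit) (o : List Γ') :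
    Rch κ 1 (cf Lab.com s i A R T C D o)
      (cf Lab.ful s i A R T C D (List.replicate (ez κ s.ph) (Γ'.bit false) ++
        Γ'.bit true :: Γ'.comma :: o)) := by
  refine Rch.one ?_
  by_cases h0 : s.ph = 0
  · simp only [stp, cf, TM2.step, prog, TM2.stepAux, h0, decide_true, cond_true, upd_out, stks_out,
      ez, if_true]
    rw [stepAux_pushF]
    rfl
  · by_cases h3 : s.ph = 3
    · simp [stp, cf, TM2.step, prog, TM2.stepAux, h3, ez]
    · simp [stp, cf, TM2.step, prog, TM2.stepAux, h0, h3, ez]

theorem ful_loop (i A : List Γ') (R T : List Bool) :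
    ∀ (C D : List Unit) (o : List Γ') (s : St), ∃ s', s'.ph = s.ph ∧ Rch κ (C.length + 1)
      (cf Lab.ful s i A R T C D o)
      (cf Lab.ret s' i A R T [] (List.replicate C.length () ++ D)
        (List.replicate C.length (Γ'.bit false) ++ o)) := by
  intro C
  induction C with
  | nil =>
    intro D o s
    refine ⟨{ s with z := none }, rfl, Rch.one ?_⟩
    simp [stp, cf, TM2.step, prog, TM2.stepAux]
  | cons b C ih =>
    intro D o s
    obtain ⟨s', h1, hs'⟩ := ih (() :: D) (Γ'.bit false :: o) { s with z := some () }
    refine ⟨s', h1, ?_⟩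
    rw [List.length_cons]
    refine Rch.cons (b := cf Lab.ful { s with z := some () } i A R T C (() :: D)
      (Γ'.bit false :: o)) ?_ ?_
    · simp [stp, cf, TM2.step, prog, TM2.stepAux]
    · rw [replicate_comm, replicate_comm] at hs'
      simpa [List.replicate_succ] using hs'

theorem ret_loop (i A : List Γ') (R T : List Bool) (o : List Γ') :
    ∀ (D C : List Unit) (s : St), ∃ s', s'.ph = nph s.ph ∧ Rch κ (D.length + 1)
      (cf Lab.ret s i A R T C D o)
      (cf (disp s.ph) s' i A R T (List.replicate D.length () ++ C) [] o) := by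
  intro D
  induction D with
  | nil =>
    intro C s
    refine ⟨{ s with z := none, ph := nph s.ph, c := decide (s.ph = 0) }, rfl, Rch.one ?_⟩
    by_cases h0 : s.ph = 0
    · simp [stp, cf, TM2.step, prog, TM2.stepAux, h0, disp]
    · by_cases h3 : s.ph = 3
      · simp [stp, cf, TM2.step, prog, TM2.stepAux, h3, disp, nph]
      · simp [stp, cf, TM2.step, prog, TM2.stepAux, h0, h3, disp, nph]
  | cons b D ih =>
    intro C s
    obtain ⟨s', h1, hs'⟩ := ih (() :: C) { s with z := some () }
    refine ⟨s', h1, ?_⟩
    rw [List.length_cons]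
    refine Rch.cons (b := cf Lab.ret { s with z := some () } i A R T (() :: C) D o) ?_ ?_
    · simp [stp, cf, TM2.step, prog, TM2.stepAux]
    · rw [replicate_comm] at hs'
      simpa [List.replicate_succ] using hs'

theorem nxt_some (s : St) (i A : List Γ') (b : Γ') (R T : List Bool) (C D : List Unit)
    (o : List Γ') : ∃ s', Rch κ 1 (cf Lab.nxt s i (b :: A) R T C D o)
      (cf Lab.elt s' i A R T C D (Γ'.ket :: o)) := by
  refine ⟨{ s with x := some b }, Rch.one ?_⟩
  simp [stp, cf, TM2.step, prog, TM2.stepAux]

theorem nxt_none (s : St) (i : List Γ') (R T : List Bool) (C D : List Unit)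
    (o : List Γ') : ∃ s', s'.ph = 3 ∧ Rch κ 1 (cf Lab.nxt s i [] R T C D o)
      (cf Lab.com s' i [] R T C D (Γ'.bit true :: Γ'.ket :: o)) := by
  refine ⟨{ s with x := none, ph := 3 }, rfl, Rch.one ?_⟩
  simp [stp, cf, TM2.step, prog, TM2.stepAux]

theorem elt_loop (i A : List Γ') (hA : isBit A.head? = false) (R T : List Bool) (C D : List Unit) :
    ∀ (p : List Bool) (o : List Γ') (s : St), ∃ s', s'.ph = 2 ∧ Rch κ (p.length + 1)
      (cf Lab.elt s i (p.map Γ'.bit ++ A) R T C D o)
      (cf Lab.com s' i A R T C D (Γ'.bit false :: ((p.map Γ'.bit).reverse ++ o))) := by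
  intro p
  induction p with
  | nil =>
    intro o s
    refine ⟨{ s with x := A.head?, ph := 2 }, rfl, Rch.one ?_⟩
    simp [stp, cf, TM2.step, prog, TM2.stepAux, hA]
  | cons b p ih =>
    intro o s
    obtain ⟨s', h1, hs'⟩ := ih (Γ'.bit b :: o) { s with x := some (Γ'.bit b) }
    refine ⟨s', h1, ?_⟩
    rw [List.length_cons]
    refine Rch.cons (b := cf Lab.elt { s with x := some (Γ'.bit b) } i (p.map Γ'.bit ++ A) R T C D
      (Γ'.bit b :: o)) ?_ ?_
    · simp [stp, cf, TM2.step, prog, TM2.stepAux, isBit]
    · simpa using hs'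

theorem fin_loop (o : List Γ') : ∀ (m : ℕ) (R : List Bool) (C : List Unit) (s : St),
    R.length + C.length ≤ m → ∃ n ≤ m + 1, Rch κ n
      (cf Lab.fin s [] [] R [] C [] o) ⟨none, st0, stks [] [] [] [] [] [] o⟩ := by
  intro m
  induction m with
  | zero =>
    intro R C s h
    have h3 : R = [] := List.length_eq_zero_iff.1 (by omega)
    have h4 : C = [] := List.length_eq_zero_iff.1 (by omega)
    subst h3 h4
    refine ⟨1, le_rfl, Rch.one ?_⟩
    simp [stp, cf, TM2.step, prog, TM2.stepAux]
  | succ m ih =>
    intro R C s h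
    by_cases h0 : R.length + C.length = 0
    · have h3 : R = [] := List.length_eq_zero_iff.1 (by omega)
      have h4 : C = [] := List.length_eq_zero_iff.1 (by omega)
      subst h3 h4
      refine ⟨1, by omega, Rch.one ?_⟩
      simp [stp, cf, TM2.step, prog, TM2.stepAux]
    · have hc : (R.head?.isNone && C.head?.isNone) = false := by
        by_contra hcon
        simp only [Bool.not_eq_false, Bool.and_eq_true, Option.isNone_iff_eq_none,
          List.head?_eq_none_iff] at hcon
        obtain ⟨h3, h4⟩ := hcon
        subst h3 h4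
        simp at h0
      obtain ⟨n, hn, hs'⟩ := ih R.tail C.tail
        { s with y := R.head?, z := C.head?, c := false } (by
          simp only [List.length_tail]
          omega)
      refine ⟨n + 1, by omega, Rch.cons ?_ hs'⟩
      simp [stp, cf, TM2.step, prog, TM2.stepAux, hc]

end Pool.Agent.H80.Pin2
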