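import Mathlib
import Pool.Agent.H80.Pin2.TM
import Pool.Agent.H80.PinCorrect
import Pool.Agent.H80.Pin2.Defs

/-!
# The machine for the reduction: its run
-/

set_option autoImplicit false

namespace Pool.Agent.H80.Pin2

open Turing Computability Pool.Agent.H80.Pin

theorem encodeNums_cons (a : ℕ) (L : List ℕ) :
    encodeNums (a :: L) = (encodeNat a).map Γ'.bit ++ Γ'.comma :: encodeNums L := by
  simp [encodeNums]

theorem encodeNums_concat (a : ℕ) (L : List ℕ) :
    encodeNums (L ++ [a]) = encodeNums L ++ ((encodeNat a).map Γ'.bit ++ [Γ'.comma]) := by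
  simp [encodeNums]

/-- subtract all numbers -/
def subAll : List Bool → List ℕ → List Bool
  | R, [] => R
  | R, a :: L => subAll (subL true (encodeNat a) R false).1 L

variable {κ : ℕ}

theorem sub_all (C : List Unit) (B : ℕ) : ∀ (L : List ℕ) (R : List Bool) (A : List Γ') (s : St),
    s.c = false → R.length + (encodeNums L).length ≤ B →
    ∃ s', ∃ n ≤ L.length * (2 * B + 3) + 1, s'.ph = 0 ∧ Rch κ n
      (cf Lab.sub s (encodeNums L) A R [] C [] [])
      (cf Lab.ket s' [] ((encodeNums L).reverse ++ A) (subAll R L) [] C [] []) := by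
  intro L
  induction L with
  | nil =>
    intro R A s _ _
    obtain ⟨s', h1, h2⟩ := sub_end (κ := κ) A R C s
    refine ⟨s', 1, by simp, h1, ?_⟩
    simpa [encodeNums, subAll] using h2
  | cons a L ih =>
    intro R A s hc hB
    rw [encodeNums_cons] at hB ⊢
    simp only [List.length_append, List.length_map, List.length_cons] at hB
    obtain ⟨s1, n1, hn1, h1⟩ := sub_loop (κ := κ) (encodeNums L) C (encodeNat a) R [] A s
    rw [hc, List.append_nil] at h1
    have hlen := subL_length true (encodeNat a) R false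
    obtain ⟨s2, hc2, h2⟩ := rst_loop (κ := κ) (encodeNums L)
      (Γ'.comma :: (((encodeNat a).map Γ'.bit).reverse ++ A)) C
      (subL true (encodeNat a) R false).1.reverse [] s1
    rw [List.reverse_reverse, List.append_nil, List.length_reverse] at h2
    obtain ⟨s3, n3, hn3, hp3, h3⟩ := ih (subL true (encodeNat a) R false).1
      (Γ'.comma :: (((encodeNat a).map Γ'.bit).reverse ++ A)) s2 hc2 (by omega)
    refine ⟨s3, n1 + ((subL true (encodeNat a) R false).1.length + 1) + n3, ?_, hp3, ?_⟩
    · simp only [List.length_cons]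
      have : (L.length + 1) * (2 * B + 3) = L.length * (2 * B + 3) + (2 * B + 3) := by ring
      rw [this]
      omega
    · have h4 := Rch.trans (Rch.trans h1 h2) h3
      simpa [subAll] using h4

/-- zeros followed by a one -/
def zs (N j : ℕ) : List Bool := List.replicate N false ++ (List.replicate j false ++ [true])

/-- code of a job -/
def jc (f p : List Bool) : List Γ' := f.map Γ'.bit ++ Γ'.comma :: (p.map Γ'.bit ++ [Γ'.ket])

/-- writing the frequency -/
theorem freq_out (N : ℕ) (s : St) (A : List Γ') (R : List Bool) (o : List Γ') :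
    ∃ s', ∃ n ≤ 2 * N + 3, s'.ph = nph s.ph ∧ Rch κ n
      (cf Lab.com s [] A R [] (List.replicate N ()) [] o)
      (cf (disp s.ph) s' [] A R [] (List.replicate N ()) []
        ((zs N (ez κ s.ph)).map Γ'.bit ++ Γ'.comma :: o)) := by
  have h1 := com_step (κ := κ) s [] A R [] (List.replicate N ()) [] o
  obtain ⟨s2, hp2, h2⟩ := ful_loop (κ := κ) [] A R [] (List.replicate N ()) []
    (List.replicate (ez κ s.ph) (Γ'.bit false) ++ Γ'.bit true :: Γ'.comma :: o) s
  obtain ⟨s3, hp3, h3⟩ := ret_loop (κ := κ) [] A R []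
    (List.replicate N (Γ'.bit false) ++ (List.replicate (ez κ s.ph) (Γ'.bit false) ++
      Γ'.bit true :: Γ'.comma :: o)) (List.replicate N ()) [] s2
  simp only [List.length_replicate, List.append_nil] at h2 h3
  rw [hp2] at hp3 h3
  refine ⟨s3, 1 + (N + 1) + (N + 1), by omega, hp3, ?_⟩
  have h4 := Rch.trans (Rch.trans h1 h2) h3
  simpa [zs] using h4

theorem job_R (N : ℕ) (s : St) (A : List Γ') (R : List Bool) (o : List Γ') :
    ∃ s', ∃ n ≤ 2 * N + 2 * R.length + 6, s'.ph = nph s.ph ∧ Rch κ n
      (cf Lab.ket s [] A R [] (List.replicate N ()) [] o)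
      (cf (disp s.ph) s' [] A R [] (List.replicate N ()) [] (jc (zs N (ez κ s.ph)) R ++ o)) := by
  have h1 := ket_step (κ := κ) s [] A R [] (List.replicate N ()) [] o
  obtain ⟨s2, hp2, h2⟩ := r2t_loop (κ := κ) [] A (List.replicate N ()) [] (Γ'.ket :: o) R [] s
  obtain ⟨s3, hp3, h3⟩ := t2o_loop (κ := κ) [] A (List.replicate N ()) [] (R.reverse ++ []) []
    (Γ'.ket :: o) s2
  obtain ⟨s4, n4, hn4, hp4, h4⟩ := freq_out (κ := κ) N s3 A
    ((R.reverse ++ []).reverse ++ []) ((R.reverse ++ []).reverse.map Γ'.bit ++ Γ'.ket :: o)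
  rw [hp3, hp2] at hp4 h4
  have h5 := Rch.trans (Rch.trans (Rch.trans h1 h2) h3) h4
  simp only [List.append_nil, List.reverse_reverse, List.length_reverse] at h5
  refine ⟨s4, 1 + (R.length + 1) + (R.length + 1) + n4, by omega, hp4, ?_⟩
  have h6 : jc (zs N (ez κ s.ph)) R ++ o = (zs N (ez κ s.ph)).map Γ'.bit ++ Γ'.comma ::
      (R.map Γ'.bit ++ Γ'.ket :: o) := by
    simp [jc]
  rw [h6]
  exact h5

/-- writing the jobs of the numbers, from label `nxt` -/
theorem elts (N B : ℕ) (R : List Bool) : ∀ (L : List ℕ) (o : List Γ') (s : St),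
    (encodeNums L).length ≤ B →
    ∃ s', ∃ n ≤ L.length * (2 * N + B + 5), Rch κ n
      (cf Lab.nxt s [] (encodeNums L).reverse R [] (List.replicate N ()) [] o)
      (cf Lab.nxt s' [] [] R [] (List.replicate N ()) []
        (L.flatMap (fun a => jc (zs N 1) (false :: encodeNat a)) ++ o)) := by
  intro L
  induction L using List.reverseRecOn with
  | nil =>
    intro o s _
    exact ⟨s, 0, by simp, by simpa [encodeNums] using Rch.refl _⟩
  | append_singleton L a ih =>
    intro o s hB
    rw [encodeNums_concat] at hB ⊢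
    simp only [List.length_append, List.length_map, List.length_cons, List.length_nil] at hB
    have hrev : (encodeNums L ++ ((encodeNat a).map Γ'.bit ++ [Γ'.comma])).reverse =
        Γ'.comma :: ((encodeNat a).reverse.map Γ'.bit ++ (encodeNums L).reverse) := by
      simp
    rw [hrev]
    obtain ⟨s1, h1⟩ := nxt_some (κ := κ) s []
      ((encodeNat a).reverse.map Γ'.bit ++ (encodeNums L).reverse) Γ'.comma R []
      (List.replicate N ()) [] o
    have hA : isBit (encodeNums L).reverse.head? = false := by
      rcases List.eq_nil_or_concat L with h | ⟨L', b, h⟩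
      · subst h; simp [encodeNums, isBit]
      · subst h
        rw [List.concat_eq_append, encodeNums_concat]
        simp [isBit]
    obtain ⟨s2, hp2, h2⟩ := elt_loop (κ := κ) [] (encodeNums L).reverse hA R []
      (List.replicate N ()) [] (encodeNat a).reverse (Γ'.ket :: o) s1
    obtain ⟨s3, n3, hn3, hp3, h3⟩ := freq_out (κ := κ) N s2 (encodeNums L).reverse R
      (Γ'.bit false :: (((encodeNat a).reverse.map Γ'.bit).reverse ++ Γ'.ket :: o))
    rw [hp2] at hp3 h3
    have e1 : ez κ 2 = 1 := by simp [ez]
    have e2 : disp 2 = Lab.nxt := by simp [disp]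
    rw [e1, e2] at h3
    obtain ⟨s4, n4, hn4, h4⟩ := ih ((zs N 1).map Γ'.bit ++ Γ'.comma ::
      Γ'.bit false :: (((encodeNat a).reverse.map Γ'.bit).reverse ++ Γ'.ket :: o)) s3 (by omega)
    have h5 := Rch.trans (Rch.trans (Rch.trans h1 h2) h3) h4
    refine ⟨s4, 1 + ((encodeNat a).reverse.length + 1) + n3 + n4, ?_, ?_⟩
    rotate_left
    · have h6 : (L ++ [a]).flatMap (fun a => jc (zs N 1) (false :: encodeNat a)) ++ o =
          L.flatMap (fun a => jc (zs N 1) (false :: encodeNat a)) ++
          ((zs N 1).map Γ'.bit ++ Γ'.comma ::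
      Γ'.bit false :: (((encodeNat a).reverse.map Γ'.bit).reverse ++ Γ'.ket :: o)) := by
        simp [jc]
      rw [h6]
      exact h5
    · simp only [List.length_append, List.length_cons, List.length_nil, List.length_reverse]
      have : (L.length + (0 + 1)) * (2 * N + B + 5) = L.length * (2 * N + B + 5) + (2 * N + B + 5) := by
        ring
      rw [this]
      omega

/-- the last part of the run -/
theorem last_out (N : ℕ) (R : List Bool) (o : List Γ') (s : St) :
    ∃ n ≤ 3 * N + R.length + 5, Rch κ n
      (cf Lab.nxt s [] [] R [] (List.replicate N ()) [] o)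
      ⟨none, st0, stks [] [] [] [] [] [] (jc (zs N 0) [true] ++ o)⟩ := by
  obtain ⟨s1, hp1, h1⟩ := nxt_none (κ := κ) s [] R [] (List.replicate N ()) [] o
  obtain ⟨s2, n2, hn2, hp2, h2⟩ := freq_out (κ := κ) N s1 [] R (Γ'.bit true :: Γ'.ket :: o)
  rw [hp1] at hp2 h2
  have e1 : ez κ 3 = 0 := by simp [ez]
  have e2 : disp 3 = Lab.fin := by simp [disp]
  rw [e1, e2] at h2
  obtain ⟨n3, hn3, h3⟩ := fin_loop (κ := κ)
    ((zs N 0).map Γ'.bit ++ Γ'.comma :: Γ'.bit true :: Γ'.ket :: o) (R.length + N) R
    (List.replicate N ()) s2 (by simp)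
  refine ⟨1 + n2 + n3, by omega, ?_⟩
  have h4 := Rch.trans (Rch.trans h1 h2) h3
  have h6 : jc (zs N 0) [true] ++ o =
      (zs N 0).map Γ'.bit ++ Γ'.comma :: Γ'.bit true :: Γ'.ket :: o := by
    simp [jc]
  rw [h6]
  exact h4

/-- the output of the machine -/
def outp (κ : ℕ) (L : List ℕ) : List Γ' :=
  jc (zs ((encodeNums L).length + κ + 1) 0) [true] ++
  (L.flatMap (fun a => jc (zs ((encodeNums L).length + κ + 1) 1) (false :: encodeNat a)) ++
  (jc (zs ((encodeNums L).length + κ + 1) 1)
    (subAll (List.replicate ((encodeNums L).length + κ + 1) true) L) ++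
  (jc (zs ((encodeNums L).length + κ + 1) (κ + 1))
    (subAll (List.replicate ((encodeNums L).length + κ + 1) true) L) ++ [])))

theorem subAll_length : ∀ (L : List ℕ) (R : List Bool) (B : ℕ),
    R.length + (encodeNums L).length ≤ B → (subAll R L).length ≤ B := by
  intro L
  induction L with
  | nil => intro R B h; simpa [subAll, encodeNums] using h
  | cons a L ih =>
    intro R B h
    rw [encodeNums_cons] at h
    simp only [List.length_append, List.length_map, List.length_cons] at h
    have := subL_length true (encodeNat a) R false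
    exact ih _ B (by omega)

theorem length_le_encodeNums (L : List ℕ) : L.length ≤ (encodeNums L).length := by
  induction L with
  | nil => simp
  | cons j L ih =>
    rw [encodeNums_cons]
    simp only [List.length_append, List.length_map, List.length_cons]
    omega

theorem full_run (L : List ℕ) : ∃ n ≤ ((encodeNums L).length + 4) * (20 * ((encodeNums L).length +
      κ + 1) + 20), Rch κ n
      (cf Lab.cnt st0 (encodeNums L) [] [] [] [] [] [])
      ⟨none, st0, stks [] [] [] [] [] [] (outp κ L)⟩ := by
  set len := (encodeNums L).length with hlen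
  set N := len + κ + 1 with hN
  obtain ⟨s1, h1⟩ := cnt_loop (κ := κ) (encodeNums L) [] [] [] st0
  have h2 := ext_step (κ := κ) s1 [] ((encodeNums L).reverse ++ [])
    (List.replicate (encodeNums L).length true ++ []) []
    (List.replicate (encodeNums L).length () ++ []) [] []
  have e1 : List.replicate (κ + 1) true ++ (List.replicate (encodeNums L).length true ++ []) =
      List.replicate N true := by
    rw [List.append_nil, List.replicate_append_replicate]
    congr 1
    omega
  have e2 : List.replicate (κ + 1) () ++ (List.replicate (encodeNums L).length () ++ []) =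
      List.replicate N () := by
    rw [List.append_nil, List.replicate_append_replicate]
    congr 1
    omega
  rw [e1, e2] at h2
  obtain ⟨s3, hc3, h3⟩ := back_loop (κ := κ) (List.replicate N true) (List.replicate N ())
    ((encodeNums L).reverse ++ []) [] s1
  have e3 : ((encodeNums L).reverse ++ []).reverse ++ [] = encodeNums L := by simp
  have e4 : ((encodeNums L).reverse ++ []).length = len := by simp [hlen]
  rw [e3, e4] at h3
  obtain ⟨s4, n4, hn4, hp4, h4⟩ := sub_all (κ := κ) (List.replicate N ()) (N + len) L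
    (List.replicate N true) [] s3 hc3 (by simp [hlen])
  set Q := subAll (List.replicate N true) L with hQ
  have hQl : Q.length ≤ N + len := subAll_length L _ _ (by simp [hlen])
  obtain ⟨s5, n5, hn5, hp5, h5⟩ := job_R (κ := κ) N s4 ((encodeNums L).reverse ++ []) Q []
  rw [hp4] at hp5 h5
  have e5 : ez κ 0 = κ + 1 := by simp [ez]
  have e6 : disp 0 = Lab.ket := by simp [disp]
  have e7 : nph 0 = 1 := by simp [nph]
  rw [e5, e6] at h5
  rw [e7] at hp5
  obtain ⟨s6, n6, hn6, hp6, h6⟩ := job_R (κ := κ) N s5 ((encodeNums L).reverse ++ []) Q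
    (jc (zs N (κ + 1)) Q ++ [])
  rw [hp5] at hp6 h6
  have e8 : ez κ 1 = 1 := by simp [ez]
  have e9 : disp 1 = Lab.nxt := by simp [disp]
  rw [e8, e9] at h6
  obtain ⟨s7, n7, hn7, h7⟩ := elts (κ := κ) N len Q L
    (jc (zs N 1) Q ++ (jc (zs N (κ + 1)) Q ++ [])) s6 le_rfl
  obtain ⟨n8, hn8, h8⟩ := last_out (κ := κ) N Q
    (L.flatMap (fun a => jc (zs N 1) (false :: encodeNat a)) ++
      (jc (zs N 1) Q ++ (jc (zs N (κ + 1)) Q ++ []))) s7
  rw [List.append_nil] at h4 h5 h6
  have h9 := Rch.trans (Rch.trans (Rch.trans (Rch.trans (Rch.trans (Rch.trans (Rch.trans h1 h2) h3)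
    h4) h5) h6) h7) h8
  refine ⟨_, ?_, h9⟩
  have hLl : L.length ≤ len := length_le_encodeNums L
  have m1 : L.length * (2 * (N + len) + 3) ≤ len * (4 * N + 3) :=
    Nat.mul_le_mul hLl (by omega)
  have m2 : L.length * (2 * N + len + 5) ≤ len * (3 * N + 5) :=
    Nat.mul_le_mul hLl (by omega)
  have m3 : (len + 4) * (20 * N + 20) =
      len * (4 * N + 3) + len * (3 * N + 5) + len * (13 * N + 12) + 80 * N + 80 := by ring
  rw [m3]
  omega

/-- Polynomial-time computability. -/
theorem polyTime {α β : Type} (g : α → List ℕ) (enc : β → List Γ') (red : α → β)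
    (h : ∀ a, enc (red a) = outp κ (g a)) :
    Nonempty (TM2ComputableInPolyTime (fun a => encodeNums (g a)) enc red) := by
  have key : ∀ a, ∃ n ≤ ((Polynomial.X + 4) * (20 * (Polynomial.X + Polynomial.C κ + 1) + 20) :
      Polynomial ℕ).eval (encodeNums (g a)).length, Rch κ n
      (cf Lab.cnt st0 (encodeNums (g a)) [] [] [] [] [] [])
      ⟨none, st0, stks [] [] [] [] [] [] (enc (red a))⟩ := by
    intro a
    rw [h]
    obtain ⟨n, hn, hr⟩ := full_run (κ := κ) (g a)
    refine ⟨n, hn.trans (le_of_eq ?_), hr⟩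
    simp only [Polynomial.eval_mul, Polynomial.eval_add, Polynomial.eval_X, Polynomial.eval_one,
      Polynomial.eval_ofNat, Polynomial.eval_C]
  choose n hn hr using key
  refine ⟨{ tm := tm κ, inputAlphabet := Equiv.refl _, outputAlphabet := Equiv.refl _,
            time := (Polynomial.X + 4) * (20 * (Polynomial.X + Polynomial.C κ + 1) + 20),
            outputsFun := ?_ }⟩
  intro a
  refine { steps := n a, evals_in_steps := ?_, steps_le_m := hn a }
  have h1 : initList (tm κ) (List.map (Equiv.refl ((tm κ).Γ (tm κ).k₀)).invFun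
      (encodeNums (g a))) = cf Lab.cnt st0 (encodeNums (g a)) [] [] [] [] [] [] := by
    have : List.map (Equiv.refl ((tm κ).Γ (tm κ).k₀)).invFun (encodeNums (g a)) =
        encodeNums (g a) := by
      exact List.map_id _
    rw [this]
    unfold initList cf
    congr 1
    funext k
    cases k <;> rfl
  have h2 : haltList (tm κ) (List.map (Equiv.refl ((tm κ).Γ (tm κ).k₁)).invFun (enc (red a))) =
      ⟨none, st0, stks [] [] [] [] [] [] (enc (red a))⟩ := by
    have : List.map (Equiv.refl ((tm κ).Γ (tm κ).k₁)).invFun (enc (red a)) = enc (red a) :=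
      List.map_id _
    rw [this]
    unfold haltList
    congr 1
    funext k
    cases k <;> rfl
  have h3 := hr a
  unfold Rch at h3
  rw [← h1] at h3
  exact h3.trans (congrArg some h2.symm)

end Pool.Agent.H80.Pin2
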