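import Mathlib
import Pool.Agent.H80.Pin2.Run

/-!
# The machine for the reduction: its output is the code of the list of jobs
-/

set_option autoImplicit false

namespace Pool.Agent.H80.Pin2

open Turing Computability Pool.Agent.H80.Pin

/-- no superfluous leading zero (digit lists are little-endian) -/
def Can (l : List Bool) : Prop := ∀ h : l ≠ [], l.getLast h = true

theorem Can.tail {b : Bool} {l : List Bool} (h : Can (b :: l)) : Can l := by
  intro hl
  have := h (by simp)
  rwa [List.getLast_cons hl] at this

theorem can_pos : ∀ l : List Bool, l ≠ [] → Can l → 0 < val l := by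
  intro l
  induction l with
  | nil => intro h; exact absurd rfl h
  | cons b l ih =>
    intro _ hc
    by_cases hl : l = []
    · subst hl
      have := hc (by simp)
      simp only [List.getLast_singleton] at this
      subst this
      simp [val]
    · have := ih hl hc.tail
      simp only [val]
      omega

theorem can_unique : ∀ l l' : List Bool, Can l → Can l' → val l = val l' → l = l' := by
  intro l
  induction l with
  | nil =>
    intro l' _ h' hv
    by_contra hne
    have := can_pos l' (fun h => hne h.symm) h'
    simp only [val] at hv
    omega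
  | cons b l ih =>
    intro l' h h' hv
    cases l' with
    | nil =>
      have := can_pos (b :: l) (by simp) h
      simp only [val] at hv this
      omega
    | cons b' l' =>
      simp only [val] at hv
      have hb : b = b' := by
        cases b <;> cases b' <;> simp at hv ⊢ <;> omega
      subst hb
      rw [ih l' h.tail h'.tail (by omega)]

theorem can_encodePosNum : ∀ n : PosNum, encodePosNum n ≠ [] ∧ Can (encodePosNum n) := by
  intro n
  induction n with
  | one => exact ⟨by simp [encodePosNum], fun _ => rfl⟩
  | bit1 n ih =>
    refine ⟨by simp [encodePosNum], fun h => ?_⟩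
    have := ih.2 ih.1
    simp only [encodePosNum]
    rwa [List.getLast_cons ih.1]
  | bit0 n ih =>
    refine ⟨by simp [encodePosNum], fun h => ?_⟩
    have := ih.2 ih.1
    simp only [encodePosNum]
    rwa [List.getLast_cons ih.1]

theorem can_encodeNat (n : ℕ) : Can (encodeNat n) := by
  unfold encodeNat encodeNum
  cases h : (n : Num) with
  | zero => intro h; exact absurd rfl h
  | pos m => exact (can_encodePosNum m).2

theorem encodeNat_of_can {l : List Bool} (h : Can l) {n : ℕ} (hn : val l = n) :
    encodeNat n = l :=
  can_unique _ _ (can_encodeNat n) h (by rw [val_encodeNat, hn])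

theorem val_zeros (n : ℕ) (l : List Bool) :
    val (List.replicate n false ++ l) = 2 ^ n * val l := by
  induction n with
  | zero => simp
  | succ n ih =>
    rw [List.replicate_succ, List.cons_append, val, ih, pow_succ]
    simp
    ring

theorem encodeNat_pow (N j : ℕ) : encodeNat (2 ^ (N + j)) = zs N j := by
  apply encodeNat_of_can
  · intro h
    unfold zs
    rw [List.getLast_append_of_ne_nil _ (by simp), List.getLast_append_of_ne_nil _ (by simp)]
    rfl
  · unfold zs
    rw [val_zeros, val_zeros, pow_add]
    simp [val]

theorem encodeNat_one : encodeNat 1 = [true] := by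
  apply encodeNat_of_can
  · intro h; rfl
  · simp [val]

theorem encodeNat_two_mul {a : ℕ} (ha : 0 < a) : encodeNat (2 * a) = false :: encodeNat a := by
  have hne : encodeNat a ≠ [] := by
    intro h
    have := val_encodeNat a
    rw [h] at this
    simp only [val] at this
    omega
  apply encodeNat_of_can
  · intro h
    rw [List.getLast_cons hne]
    exact can_encodeNat a hne
  · simp [val, val_encodeNat]

theorem val_ones (n : ℕ) : val (List.replicate n true) + 1 = 2 ^ n := by
  induction n with
  | zero => simp [val]
  | succ n ih =>
    rw [List.replicate_succ, val, pow_succ, ← ih]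
    simp
    ring

theorem subL_length_eq (e : Bool) : ∀ (p R : List Bool) (c : Bool), p.length ≤ R.length →
    (subL e p R c).1.length = R.length := by
  intro p
  induction p with
  | nil =>
    intro R
    induction R with
    | nil => intro c _; simp [subL]
    | cons y R ih =>
      intro c _
      have := ih (bor y false c) (by simp)
      simp only [subL, List.length_cons, this]
  | cons b p ih =>
    intro R c h
    cases R with
    | nil => simp at h
    | cons y R =>
      have := ih R (bor y b c) (by simpa using h)
      simp only [subL, List.length_cons, this]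

theorem length_encodeNat_le {L : List ℕ} {a : ℕ} (h : a ∈ L) :
    (encodeNat a).length ≤ (encodeNums L).length := by
  induction L with
  | nil => simp at h
  | cons b L ih =>
    rw [encodeNums_cons]
    simp only [List.length_append, List.length_map, List.length_cons]
    rw [List.mem_cons] at h
    rcases h with h | h
    · subst h; omega
    · have := ih h; omega

theorem subAll_spec : ∀ (L : List ℕ) (R : List Bool), (∀ a ∈ L, (encodeNat a).length ≤ R.length) →
    L.sum ≤ val R → (subAll R L).length = R.length ∧ val (subAll R L) + L.sum = val R := by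
  intro L
  induction L with
  | nil => intro R _ _; simp [subAll]
  | cons a L ih =>
    intro R hlen hsum
    rw [List.sum_cons] at hsum
    have ha := hlen a (by simp)
    have h1 := subL_length_eq true (encodeNat a) R false ha
    have hb := subL_borrow true (encodeNat a) R
    rw [val_encodeNat] at hb
    have hbf : (subL true (encodeNat a) R false).2 = false := by
      rw [← Bool.not_eq_true]
      intro h
      have := hb.1 h
      omega
    have h2 := subL_true (encodeNat a) R false
    rw [hbf, val_encodeNat] at h2
    simp at h2
    obtain ⟨h3, h4⟩ := ih (subL true (encodeNat a) R false).1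
      (fun x hx => by rw [h1]; exact hlen x (List.mem_cons_of_mem _ hx)) (by omega)
    rw [subAll, List.sum_cons]
    exact ⟨by rw [h3, h1], by omega⟩

theorem sum_lt (L : List ℕ) : 1 + L.sum ≤ 2 ^ (encodeNums L).length := by
  induction L with
  | nil => simp [encodeNums]
  | cons a L ih =>
    rw [encodeNums_cons, List.sum_cons]
    simp only [List.length_append, List.length_map, List.length_cons]
    have h1 := val_lt (encodeNat a)
    rw [val_encodeNat] at h1
    have h2 : 2 ^ ((encodeNat a).length + ((encodeNums L).length + 1)) =
        2 * (2 ^ (encodeNat a).length * 2 ^ (encodeNums L).length) := by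
      rw [pow_add, pow_succ]; ring
    rw [h2]
    have h3 : 1 ≤ 2 ^ (encodeNat a).length := Nat.one_le_two_pow
    have h4 : 1 ≤ 2 ^ (encodeNums L).length := Nat.one_le_two_pow
    nlinarith

/-- the number `N` of digits -/
def dg (κ : ℕ) (L : List ℕ) : ℕ := (encodeNums L).length + κ + 1

/-- the jobs of the reduction -/
def redJobs (κ : ℕ) (L : List ℕ) : List (ℕ × ℕ) :=
  (2 ^ dg κ L, 1) :: (L.map (fun a => (2 ^ (dg κ L + 1), 2 * a)) ++
    [(2 ^ (dg κ L + 1), 2 ^ dg κ L - 1 - L.sum),
     (2 ^ (dg κ L + (κ + 1)), 2 ^ dg κ L - 1 - L.sum)])

theorem last_of_val {l : List Bool} (h : l ≠ []) (hv : 2 ^ (l.length - 1) ≤ val l) :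
    l.getLast h = true := by
  by_contra hc
  rw [Bool.not_eq_true] at hc
  have h1 : l = l.dropLast ++ [false] := by
    rw [← hc]; exact (List.dropLast_append_getLast h).symm
  have h2 : ∀ l' : List Bool, val (l' ++ [false]) = val l' := by
    intro l'
    induction l' with
    | nil => simp [val]
    | cons b l' ih => simp only [List.cons_append, val, ih]
  have h3 := val_lt l.dropLast
  rw [List.length_dropLast] at h3
  rw [h1, h2] at hv
  simp only [List.length_append, List.length_dropLast, List.length_cons, List.length_nil] at hv
  have h4 : l.length - 1 + (0 + 1) - 1 = l.length - 1 := by omega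
  rw [h4] at hv
  omega

theorem encodeNat_sub (κ : ℕ) (L : List ℕ) :
    encodeNat (2 ^ dg κ L - 1 - L.sum) = subAll (List.replicate (dg κ L) true) L := by
  have hs := sum_lt L
  have h1 : 2 ^ dg κ L = 2 * (2 ^ (encodeNums L).length * 2 ^ κ) := by
    unfold dg
    rw [pow_succ, pow_add]; ring
  have h2 : 1 ≤ 2 ^ κ := Nat.one_le_two_pow
  have h3 : 2 ^ (encodeNums L).length ≤ 2 ^ (encodeNums L).length * 2 ^ κ :=
    Nat.le_mul_of_pos_right _ h2
  have hv := val_ones (dg κ L)
  obtain ⟨h4, h5⟩ := subAll_spec L (List.replicate (dg κ L) true) (by
    intro a ha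
    rw [List.length_replicate]
    have := length_encodeNat_le ha
    unfold dg
    omega) (by omega)
  rw [List.length_replicate] at h4
  apply encodeNat_of_can
  · intro h
    apply last_of_val
    rw [h4]
    have h6 : 2 ^ (dg κ L - 1) = 2 ^ (encodeNums L).length * 2 ^ κ := by
      unfold dg
      rw [Nat.add_sub_cancel, pow_add]
    rw [h6]
    omega
  · omega

theorem outp_eq (κ : ℕ) (L : List ℕ) (hL : ∀ a ∈ L, 0 < a) :
    outp κ L = encodeJobs (redJobs κ L) := by
  have hj : ∀ j : ℕ × ℕ, encodeJob j = jc (encodeNat j.1) (encodeNat j.2) := fun j => rfl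
  unfold outp redJobs encodeJobs
  rw [List.flatMap_cons, List.flatMap_append]
  simp only [List.flatMap_cons, List.flatMap_nil, hj, encodeNat_one, encodeNat_pow,
    encodeNat_sub]
  have h0 : encodeNat (2 ^ dg κ L) = zs (dg κ L) 0 := by
    have := encodeNat_pow (dg κ L) 0
    rwa [add_zero] at this
  rw [h0]
  have h1 : (L.map (fun a => (2 ^ (dg κ L + 1), 2 * a))).flatMap
      (fun j : ℕ × ℕ => jc (encodeNat j.1) (encodeNat j.2)) =
      L.flatMap (fun a => jc (zs (dg κ L) 1) (false :: encodeNat a)) := by
    rw [List.flatMap_map]
    apply List.flatMap_congr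
    intro a ha
    simp only [encodeNat_pow, encodeNat_two_mul (hL a ha)]
  have h2 : (L.map (fun a => (2 ^ (dg κ L + 1), 2 * a))).flatMap encodeJob =
      L.flatMap (fun a => jc (zs (dg κ L) 1) (false :: encodeNat a)) := by
    rw [← h1]
    apply List.flatMap_congr
    intro j _
    exact hj j
  rw [h2]
  simp only [dg, List.append_assoc, List.append_nil, add_assoc]

end Pool.Agent.H80.Pin2
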