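import Mathlib
import Pool.Agent.H80.PinPack
import Pool.Agent.H80.PinSched

/-!
# Pinwheel scheduling with durations: the criterion is exact up to density `1/2`

First fit over the residue classes. If a job fails, then every class is nonempty and two classes
which are different modulo the smallest period have together a load larger than the capacity, so
the average load is larger than half of the capacity.
-/

set_option autoImplicit false

namespace Pool.Agent.H80.Pin

open Finset

theorem pack_half_step (n C : ℕ) (k p : ℕ → ℕ) (hk2 : ∀ i < n, 2 ≤ k i)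
    (hdiv : ∀ i, i + 1 < n → k i ∣ k (i + 1)) (hp : ∀ i < n, 0 < p i ∧ p i ≤ C)
    (hD : 2 * ∑ i ∈ range n, (p i : ℚ) / k i ≤ C) :
    ∀ j, j ≤ n → ∃ r : ℕ → ℕ, (∀ i < j, r i < k i) ∧ (∀ b, load k p r j b ≤ C) ∧
      ∀ b b', b % k 0 ≠ b' % k 0 → 0 < load k p r j b → 0 < load k p r j b' →
        C < load k p r j b + load k p r j b' := by
  intro j
  induction j with
  | zero =>
    intro _
    refine ⟨fun _ => 0, fun i hi => absurd hi (Nat.not_lt_zero _), fun b => ?_,
      fun b b' _ h => ?_⟩
    · simp [load]
    · simp [load] at h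
  | succ j ih =>
    intro hj
    obtain ⟨r, hr, hload, hinv⟩ := ih (by omega)
    set K := k j with hK
    have hK2 : 2 ≤ K := hk2 _ (by omega)
    have hpj := hp j (by omega)
    have hdvK : ∀ i < j, k i ∣ K := fun i hi => dvd_chain hdiv j (by omega) i (by omega)
    have hdv0 : k 0 ∣ K := dvd_chain hdiv j (by omega) 0 (by omega)
    have hperK : ∀ b, load k p r j (b + K) = load k p r j b := load_periodic hdvK
    have hupd : ∀ s, ∀ b, load k p (Function.update r j s) (j + 1) b =
        load k p r j b + if b % K = s then p j else 0 := by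
      intro s b
      unfold load
      rw [Finset.sum_range_succ, Function.update_self]
      congr 1
      apply Finset.sum_congr rfl
      intro i hi
      rw [Finset.mem_range] at hi
      rw [Function.update_of_ne (by omega)]
    have hrupd : ∀ s < K, ∀ i < j + 1, Function.update r j s i < k i := by
      intro s hs i hi
      by_cases h : i = j
      · subst h; rw [Function.update_self]; exact hs
      · rw [Function.update_of_ne h]; exact hr i (by omega)
    have hmodK : ∀ b, load k p r j b = load k p r j (b % K) := by
      intro b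
      conv_lhs => rw [← Nat.mod_add_div b K]
      generalize b % K = x
      generalize b / K = y
      induction y with
      | zero => simp
      | succ y ih => rw [show x + K * (y + 1) = x + K * y + K by ring, hperK, ih]
    have hloadupd : ∀ s < K, load k p r j s + p j ≤ C →
        ∀ b, load k p (Function.update r j s) (j + 1) b ≤ C := by
      intro s hs hle b
      rw [hupd]
      by_cases h : b % K = s
      · rw [if_pos h, hmodK b, h]; exact hle
      · rw [if_neg h, add_zero]; exact hload b
    by_cases hA : ∃ s < K, 0 < load k p r j s ∧ load k p r j s + p j ≤ C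
    · -- put the job into a nonempty class
      obtain ⟨s, hs, hpos, hle⟩ := hA
      refine ⟨Function.update r j s, hrupd s hs, hloadupd s hs hle, ?_⟩
      have hpos' : ∀ b, 0 < load k p (Function.update r j s) (j + 1) b → 0 < load k p r j b := by
        intro b hb
        rw [hupd] at hb
        by_cases h : b % K = s
        · rw [hmodK b, h]; exact hpos
        · rw [if_neg h, add_zero] at hb; exact hb
      intro b b' hne hb hb'
      have h1 := hinv b b' hne (hpos' b hb) (hpos' b' hb')
      rw [hupd, hupd]
      omega
    · push Not at hA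
      have hA' : ∀ b, 0 < load k p r j b → C < load k p r j b + p j := by
        intro b hb
        rw [hmodK b] at hb ⊢
        exact hA _ (Nat.mod_lt _ (by omega)) hb
      by_cases hE : ∃ s < K, load k p r j s = 0
      · obtain ⟨s, hs, h0⟩ := hE
        refine ⟨Function.update r j s, hrupd s hs,
          hloadupd s hs (by rw [h0]; omega), ?_⟩
        intro b b' hne hb hb'
        rw [hupd] at hb hb' ⊢
        rw [hupd]
        by_cases h : b % K = s
        · by_cases h' : b' % K = s
          · exfalso
            apply hne
            rw [← Nat.mod_mod_of_dvd b hdv0, ← Nat.mod_mod_of_dvd b' hdv0, h, h']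
          · rw [if_neg h', add_zero] at hb' ⊢
            rw [if_pos h]
            have := hA' b' hb'
            omega
        · rw [if_neg h, add_zero] at hb ⊢
          by_cases h' : b' % K = s
          · rw [if_pos h']
            have := hA' b hb
            omega
          · rw [if_neg h', add_zero] at hb' ⊢
            exact hinv b b' hne hb hb'
      · -- no empty class: contradiction with the density bound
        exfalso
        push Not at hE
        have hpos : ∀ b, 0 < load k p r j b := by
          intro b
          rw [hmodK b]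
          exact Nat.pos_of_ne_zero (hE _ (Nat.mod_lt _ (by omega)))
        have hk0 : 2 ≤ k 0 := hk2 0 (by omega)
        have hpair : ∀ b, C + 1 ≤ load k p r j b + load k p r j (b + 1) := by
          intro b
          apply hinv b (b + 1) _ (hpos b) (hpos (b + 1))
          intro h
          have h1 : (b + 1) % k 0 = (b % k 0 + 1) % k 0 := by rw [Nat.mod_add_mod]
          rw [h1] at h
          rcases Nat.lt_or_ge (b % k 0 + 1) (k 0) with h2 | h2
          · rw [Nat.mod_eq_of_lt h2] at h; omega
          · have h3 := Nat.mod_lt b (by omega : k 0 > 0)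
            have h4 : b % k 0 + 1 = k 0 := by omega
            rw [h4, Nat.mod_self] at h
            omega
        set W := ∑ b ∈ range K, load k p r j b with hW
        have hshift : ∑ b ∈ range K, load k p r j (b + 1) = W := by
          have h1 := Finset.sum_range_succ (fun b => load k p r j b) K
          have h2 := Finset.sum_range_succ' (fun b => load k p r j b) K
          have h3 : load k p r j K = load k p r j 0 := by
            have := hperK 0
            rwa [zero_add] at this
          rw [h3] at h1
          omega
        have hsum : K * (C + 1) ≤ 2 * W := by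
          have h1 : ∑ b ∈ range K, (C + 1) ≤
              ∑ b ∈ range K, (load k p r j b + load k p r j (b + 1)) :=
            Finset.sum_le_sum fun b _ => hpair b
          have h2 : ∑ b ∈ range K, (C + 1) = K * (C + 1) := by
            rw [Finset.sum_const, Finset.card_range, smul_eq_mul]
          rw [h2, Finset.sum_add_distrib, hshift, ← hW] at h1
          omega
        have hWq := sum_load (p := p) hdvK hr
        rw [← hW] at hWq
        have hKq : (0 : ℚ) < K := by exact_mod_cast (by omega : 0 < K)
        have h4 : (∑ i ∈ range j, (p i : ℚ) / k i) ≤ ∑ i ∈ range n, (p i : ℚ) / k i := by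
          apply Finset.sum_le_sum_of_subset_of_nonneg
          · intro x hx
            rw [Finset.mem_range] at *
            omega
          · intro i _ _
            positivity
        have h6 : (K : ℚ) * (C + 1) ≤ 2 * W := by exact_mod_cast hsum
        rw [hWq] at h6
        have h7 : (C : ℚ) + 1 ≤ 2 * ∑ i ∈ range j, (p i : ℚ) / k i := by
          have : (C + 1 : ℚ) * K ≤ (2 * ∑ i ∈ range j, (p i : ℚ) / k i) * K := by
            linarith
          exact le_of_mul_le_mul_right this hKq
        linarith

/-- **Packing lemma.** Jobs of sizes at most `C` with periods at least `2` forming a divisibility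
chain and total rate at most `C/2` can be placed in residue classes with all loads at most `C`. -/
theorem pack_half (n C : ℕ) (k p : ℕ → ℕ) (hk2 : ∀ i < n, 2 ≤ k i)
    (hdiv : ∀ i, i + 1 < n → k i ∣ k (i + 1)) (hp : ∀ i < n, 0 < p i ∧ p i ≤ C)
    (hD : 2 * ∑ i ∈ range n, (p i : ℚ) / k i ≤ C) :
    ∃ r : ℕ → ℕ, (∀ i < n, r i < k i) ∧ ∀ b, load k p r n b ≤ C := by
  obtain ⟨r, h1, h2, -⟩ := pack_half_step n C k p hk2 hdiv hp hD n le_rfl
  exact ⟨r, h1, h2⟩

/-- A packing of the jobs of larger frequency into residue classes gives a schedule. -/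
theorem sched_of_pack (n : ℕ) (hn : 0 < n) (f p : ℕ → ℕ) (hf : ∀ i < n, 0 < f i)
    (hdiv : ∀ i, i + 1 < n → f i ∣ f (i + 1)) (m : ℕ) (hmn : m ≤ n)
    (hPleF : ∑ i ∈ range m, p i ≤ f 0)
    (r : ℕ → ℕ) (hr : ∀ i < n - m, r i < f (m + i) / f 0)
    (hload : ∀ b, load (fun i => f (m + i) / f 0) (fun i => p (m + i)) r (n - m) b ≤
      f 0 - ∑ i ∈ range m, p i) :
    ∃ S : ℕ → ℕ, (∀ t, S t < n) ∧ ∀ i < n, {t | S t = i}.Infinite ∧
      ∀ a b, a < b → S a = i → S b = i → (∀ c, a < c → c < b → S c ≠ i) →
        ∑ t ∈ Ioc a b, p (S t) ≤ f i := by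
  classical
  set F := f 0 with hF
  have hF0 : 0 < F := hf 0 hn
  have hchain := dvd_chain hdiv
  have hmono : ∀ j < n, ∀ i ≤ j, f i ≤ f j := fun j hj i hi =>
    Nat.le_of_dvd (hf j hj) (hchain j hj i hi)
  set P := ∑ i ∈ range m, p i with hP
  have hkF : ∀ i < n, f i / F * F = f i := fun i hi =>
    Nat.div_mul_cancel (hchain i hi 0 (Nat.zero_le _))
  have hkpos : ∀ i < n, 0 < f i / F := by
    intro i hi
    apply Nat.div_pos (hmono i hi 0 (Nat.zero_le _)) hF0
  obtain ⟨S, hS1, hS2⟩ := sched n F hn (fun i => f i / F) p
    (fun b j => j < m ∨ b % (f j / F) = r (j - m))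
    hkpos
    (by
      intro i hi j hj b
      by_cases h : j < m
      · simp [h]
      · simp only [h, false_or]
        have h1 : f j / F ∣ f i / F := by
          have h1 := hchain i hi j hj
          have h2 := hkF i hi
          have h3 := hkF j (by omega)
          rw [← h2, ← h3] at h1
          exact Nat.dvd_of_mul_dvd_mul_right hF0 h1
        rw [mod_periodic h1])
    (by
      intro i hi
      by_cases h : i < m
      · exact ⟨0, Or.inl h⟩
      · refine ⟨r (i - m), Or.inr ?_⟩
        have := hr (i - m) (by omega)
        rw [Nat.add_sub_cancel' (by omega : m ≤ i)] at this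
        exact Nat.mod_eq_of_lt this)
    (by
      intro b g hg1 hg2
      conv_lhs => rw [← Nat.add_sub_cancel' hmn]
      rw [Finset.sum_range_add]
      have h1 : ∑ x ∈ range m, g x = P := by
        rw [hP]
        apply Finset.sum_congr rfl
        intro x hx
        rw [Finset.mem_range] at hx
        exact hg1 x (by omega) (Or.inl hx)
      have h2 : ∑ x ∈ range (n - m), g (m + x) =
          load (fun i => f (m + i) / F) (fun i => p (m + i)) r (n - m) b := by
        unfold load
        apply Finset.sum_congr rfl
        intro x hx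
        rw [Finset.mem_range] at hx
        by_cases h : b % (f (m + x) / F) = r x
        · rw [if_pos h]
          apply hg1 _ (by omega)
          right
          rw [Nat.add_sub_cancel_left]
          exact h
        · rw [if_neg h]
          apply hg2 _ (by omega)
          rintro (h' | h')
          · omega
          · rw [Nat.add_sub_cancel_left] at h'
            exact h h'
      rw [h1, h2]
      have := hload b
      omega)
  refine ⟨S, hS1, fun i hi => ⟨(hS2 i hi).1, ?_⟩⟩
  intro a b h1 h2 h3 h4
  have := (hS2 i hi).2 a b h1 h2 h3 h4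
  simp only [hkF i hi] at this
  exact this

/-- The number of jobs of smallest frequency. -/
theorem exists_count (n : ℕ) (hn : 0 < n) (f : ℕ → ℕ) (hmono : ∀ j < n, ∀ i ≤ j, f i ≤ f j) :
    ∃ m, 1 ≤ m ∧ m ≤ n ∧ (∀ i < m, f i = f 0) ∧ ∀ i, m ≤ i → i < n → f i ≠ f 0 := by
  classical
  by_cases h : ∃ i, i < n ∧ f i ≠ f 0
  · refine ⟨Nat.find h, ?_, (Nat.find_spec h).1.le, ?_, ?_⟩
    · rw [Nat.one_le_iff_ne_zero]
      intro h0
      have := (Nat.find_spec h).2
      rw [h0] at this
      exact this rfl
    · intro i hi
      by_contra hcon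
      exact Nat.find_min h hi ⟨lt_trans hi (Nat.find_spec h).1, hcon⟩
    · intro i hi hin hcon
      have h1 := (Nat.find_spec h).2
      apply h1
      have h2 := hmono i hin _ hi
      have h3 := hmono _ (Nat.find_spec h).1 0 (Nat.zero_le _)
      omega
  · push Not at h
    exact ⟨n, hn, le_rfl, h, fun i hi hin => absurd hin (by omega)⟩

/-- Sufficiency of the criterion for `2 ρ ≤ 1 + ρ_1`. -/
theorem suff_half (n : ℕ) (hn : 0 < n) (f p : ℕ → ℕ) (hf : ∀ i < n, 0 < f i)
    (hp : ∀ i < n, 0 < p i) (hdiv : ∀ i, i + 1 < n → f i ∣ f (i + 1))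
    (hdens : 2 * ∑ i ∈ range n, (p i : ℚ) / f i ≤
      1 + ((∑ i ∈ range n, if f i = f 0 then p i else 0 : ℕ) : ℚ) / f 0)
    (hcrit : ∀ j < n, f j ≠ f 0 → (∑ i ∈ range n, if f i = f 0 then p i else 0) + p j ≤ f 0)
    (hle : (∑ i ∈ range n, if f i = f 0 then p i else 0) ≤ f 0) :
    ∃ S : ℕ → ℕ, (∀ t, S t < n) ∧ ∀ i < n, {t | S t = i}.Infinite ∧
      ∀ a b, a < b → S a = i → S b = i → (∀ c, a < c → c < b → S c ≠ i) →
        ∑ t ∈ Ioc a b, p (S t) ≤ f i := by
  classical
  set F := f 0 with hF
  have hF0 : 0 < F := hf 0 hn
  have hchain := dvd_chain hdiv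
  have hmono : ∀ j < n, ∀ i ≤ j, f i ≤ f j := fun j hj i hi =>
    Nat.le_of_dvd (hf j hj) (hchain j hj i hi)
  obtain ⟨m, -, hmn, hmF, hmF'⟩ := exists_count n hn f hmono
  rw [← hF] at hmF hmF'
  set P := ∑ i ∈ range m, p i with hP
  have hPsum : (∑ i ∈ range n, if f i = F then p i else 0) = P := by
    obtain ⟨d, rfl⟩ := Nat.exists_eq_add_of_le hmn
    rw [Finset.sum_range_add, hP]
    have h1 : (∑ x ∈ range d, if f (m + x) = F then p (m + x) else 0) = 0 := by
      apply Finset.sum_eq_zero
      intro x hx
      rw [Finset.mem_range] at hx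
      rw [if_neg (hmF' _ (by omega) (by omega))]
    rw [h1, add_zero]
    apply Finset.sum_congr rfl
    intro x hx
    rw [Finset.mem_range] at hx
    rw [if_pos (hmF x hx)]
  rw [hPsum] at hcrit hdens hle
  have hkF : ∀ i < n, f i / F * F = f i := fun i hi =>
    Nat.div_mul_cancel (hchain i hi 0 (Nat.zero_le _))
  have hkpos : ∀ i < n, 0 < f i / F := by
    intro i hi
    apply Nat.div_pos (hmono i hi 0 (Nat.zero_le _)) hF0
  have hFq : (0 : ℚ) < F := by exact_mod_cast hF0
  have hsplit : (∑ i ∈ range n, (p i : ℚ) / f i) =
      P / F + ∑ i ∈ range (n - m), (p (m + i) : ℚ) / f (m + i) := by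
    conv_lhs => rw [← Nat.add_sub_cancel' hmn]
    rw [Finset.sum_range_add, hP]
    congr 1
    push_cast
    rw [Finset.sum_div]
    apply Finset.sum_congr rfl
    intro x hx
    rw [Finset.mem_range] at hx
    rw [hmF x hx]
  obtain ⟨r, hr, hload⟩ := pack_half (n - m) (F - P) (fun i => f (m + i) / F) (fun i => p (m + i))
    (by
      intro i hi
      have h1 := hmF' (m + i) (by omega) (by omega)
      have h2 := hkF (m + i) (by omega)
      have h3 := hkpos (m + i) (by omega)
      by_contra hcon
      have h4 : f (m + i) / F = 1 := by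
        omega
      rw [h4, one_mul] at h2
      exact h1 h2.symm)
    (by
      intro i hi
      have h1 := hdiv (m + i) (by omega)
      have h2 := hkF (m + i) (by omega)
      have h3 := hkF (m + i + 1) (by omega)
      rw [← h2, ← h3] at h1
      exact Nat.dvd_of_mul_dvd_mul_right hF0 h1)
    (by
      intro i hi
      refine ⟨hp _ (by omega), ?_⟩
      have := hcrit (m + i) (by omega) (hmF' _ (by omega) (by omega))
      omega)
    (by
      have h1 : ∀ i ∈ range (n - m), (p (m + i) : ℚ) / ((f (m + i) / F : ℕ) : ℚ) =
          F * ((p (m + i) : ℚ) / f (m + i)) := by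
        intro i hi
        rw [Finset.mem_range] at hi
        have h2 := hkF (m + i) (by omega)
        have h3 := hkpos (m + i) (by omega)
        have h4 : (f (m + i) : ℚ) = ((f (m + i) / F : ℕ) : ℚ) * F := by exact_mod_cast h2.symm
        have h5 : ((f (m + i) / F : ℕ) : ℚ) ≠ 0 := by exact_mod_cast h3.ne'
        rw [h4]
        field_simp
      rw [Finset.sum_congr rfl h1, ← Finset.mul_sum]
      rw [hsplit] at hdens
      set X := ∑ i ∈ range (n - m), (p (m + i) : ℚ) / f (m + i) with hX
      rw [Nat.cast_sub hle]
      have h6 : 2 * ((P : ℚ) / F + X) * F ≤ (1 + P / F) * F :=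
        mul_le_mul_of_nonneg_right hdens hFq.le
      have h7 : 2 * ((P : ℚ) / F + X) * F = 2 * P + 2 * (F * X) := by
        field_simp
      have h8 : (1 + (P : ℚ) / F) * F = F + P := by
        field_simp
      rw [h7, h8] at h6
      linarith)
  exact sched_of_pack n hn f p hf hdiv m hmn hle r hr hload

end Pool.Agent.H80.Pin
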