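import Mathlib

/-!
# Pinwheel scheduling with durations: the window of a rare long job

Jobs: job `0` with frequency `F` and duration `P`, a rare job `x` with duration `R - t`,
`F = P + R`, and other jobs with frequency `2 F` and total duration `R + t`. In a feasible schedule
some set of the other jobs has total duration exactly `t`.
-/

set_option autoImplicit false

namespace Pool.Agent.H80.Pin2

open Finset

theorem exists_prev (S : ℕ → ℕ) (i t : ℕ) (h : ∃ c, c < t ∧ S c = i) :
    ∃ a, a < t ∧ S a = i ∧ ∀ c, a < c → c < t → S c ≠ i := by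
  classical
  set Q := (range t).filter (fun c => S c = i) with hQ
  have hne : Q.Nonempty := by
    obtain ⟨c, h1, h2⟩ := h
    exact ⟨c, by rw [hQ, Finset.mem_filter, Finset.mem_range]; exact ⟨h1, h2⟩⟩
  obtain ⟨a, haQ, hamax⟩ := Finset.exists_max_image Q id hne
  rw [hQ, Finset.mem_filter, Finset.mem_range] at haQ
  refine ⟨a, haQ.1, haQ.2, ?_⟩
  intro c h1 h2 h3
  have : c ∈ Q := by
    rw [hQ, Finset.mem_filter, Finset.mem_range]; exact ⟨h2, h3⟩
  have := hamax c this
  simp only [id] at this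
  omega

theorem exists_next (S : ℕ → ℕ) (i t : ℕ) (h : ∃ c, t < c ∧ S c = i) :
    ∃ b, t < b ∧ S b = i ∧ ∀ c, t < c → c < b → S c ≠ i := by
  classical
  refine ⟨Nat.find h, (Nat.find_spec h).1, (Nat.find_spec h).2, ?_⟩
  intro c h1 h2 h3
  exact Nat.find_min h h2 ⟨h1, h3⟩

/-- a family of positions of different jobs in a set of positions -/
theorem sum_fam (S p : ℕ → ℕ) (A Q : Finset ℕ) (c : ℕ → ℕ) (hS : ∀ i ∈ A, S (c i) = i)
    (hQ : ∀ i ∈ A, c i ∈ Q) : ∑ i ∈ A, p i ≤ ∑ q ∈ Q, p (S q) := by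
  classical
  have h1 : ∑ i ∈ A, p i = ∑ q ∈ A.image c, p (S q) := by
    rw [Finset.sum_image]
    · apply Finset.sum_congr rfl
      intro i hi
      rw [hS i hi]
    · intro i hi j hj hij
      rw [← hS i hi, ← hS j hj, hij]
  rw [h1]
  apply Finset.sum_le_sum_of_subset
  intro q hq
  rw [Finset.mem_image] at hq
  obtain ⟨i, hi, rfl⟩ := hq
  exact hQ i hi

theorem red_nec (n F P R t x : ℕ) (hn : 0 < n) (f p S : ℕ → ℕ)
    (hfeas : ∀ i < n, {t | S t = i}.Infinite ∧
      ∀ a b, a < b → S a = i → S b = i → (∀ c, a < c → c < b → S c ≠ i) →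
        ∑ t ∈ Ioc a b, p (S t) ≤ f i)
    (hF : F = P + R) (hf0 : f 0 = F) (hp0 : p 0 = P) (hP : 0 < P)
    (hx : x < n) (hx0 : x ≠ 0) (hpx : p x + t = R) (hR : 0 < R)
    (hI : ∀ i ∈ (range n).filter (fun i => i ≠ 0 ∧ i ≠ x), f i = 2 * F)
    (hsum : ∑ i ∈ (range n).filter (fun i => i ≠ 0 ∧ i ≠ x), p i = R + t) :
    ∃ B ⊆ (range n).filter (fun i => i ≠ 0 ∧ i ≠ x), ∑ i ∈ B, p i = t := by
  classical
  set I := (range n).filter (fun i => i ≠ 0 ∧ i ≠ x) with hIdef
  have hIn : ∀ i ∈ I, i < n ∧ i ≠ 0 ∧ i ≠ x := by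
    intro i hi
    rw [hIdef, Finset.mem_filter, Finset.mem_range] at hi
    exact hi
  have hocc : ∀ i < n, ∀ m, ∃ t, m < t ∧ S t = i := by
    intro i hi m
    obtain ⟨t, ht, hmt⟩ := (Set.infinite_iff_exists_gt.1 (hfeas i hi).1) m
    exact ⟨t, hmt, ht⟩
  choose! o ho1 ho2 using hocc
  set T0 := (range n).sup (fun i => o i 0) with hT0
  have hoT0 : ∀ i < n, o i 0 ≤ T0 := fun i hi =>
    Finset.le_sup (f := fun i => o i 0) (Finset.mem_range.2 hi)
  set T1 := o 0 T0 with hT1
  have hT01 : T0 < T1 := ho1 0 hn T0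
  have hST1 : S T1 = 0 := ho2 0 hn T0
  set T := o x T1 with hT
  have hT1T : T1 < T := ho1 x hx T1
  have hST : S T = x := ho2 x hx T1
  obtain ⟨u, huT, hSu, hu3⟩ := exists_prev S 0 T ⟨T1, hT1T, hST1⟩
  have hT1u : T1 ≤ u := by
    by_contra hcon
    push Not at hcon
    exact hu3 T1 hcon hT1T hST1
  obtain ⟨v, hTv, hSv, hv3⟩ := exists_next S 0 T ⟨o 0 T, ho1 0 hn T, ho2 0 hn T⟩
  obtain ⟨u', hu'u, hSu', hu'3⟩ := exists_prev S 0 u
    ⟨o 0 0, by have := hoT0 0 hn; omega, ho2 0 hn 0⟩
  have hgap : ∑ c ∈ Ioc u v, p (S c) ≤ F := by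
    rw [← hf0]
    apply (hfeas 0 hn).2 u v (by omega) hSu hSv
    intro c h1 h2
    rcases lt_trichotomy c T with h | h | h
    · exact hu3 c h1 h
    · rw [h, hST]; exact hx0
    · exact hv3 c h h2
  have hgap' : ∑ c ∈ Ioc u' u, p (S c) ≤ F := by
    rw [← hf0]
    exact (hfeas 0 hn).2 u' u hu'u hSu' hSu hu'3
  set B := I.filter (fun i => ∃ c, u < c ∧ c < v ∧ S c = i) with hB
  set J := I.filter (fun i => ¬ ∃ c, u < c ∧ c < v ∧ S c = i) with hJ
  have hBJ : ∑ i ∈ B, p i + ∑ i ∈ J, p i = R + t := by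
    rw [hB, hJ, Finset.sum_filter_add_sum_filter_not, hsum]
  have hBI : ∀ i ∈ B, i ∈ I := fun i hi => (Finset.mem_filter.1 hi).1
  have hJI : ∀ i ∈ J, i ∈ I := fun i hi => (Finset.mem_filter.1 hi).1
  -- the window of the rare job
  have hwex : ∀ i ∈ B, ∃ c, u < c ∧ c < v ∧ S c = i := fun i hi => (Finset.mem_filter.1 hi).2
  choose! w hw1 hw2 hw3 using hwex
  have hwin : P + (p x + ∑ i ∈ B, p i) ≤ ∑ c ∈ Ioc u v, p (S c) := by
    have h0B : (0 : ℕ) ∉ insert x B := by
      rw [Finset.mem_insert]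
      rintro (h | h)
      · exact hx0 h.symm
      · exact (hIn 0 (hBI 0 h)).2.1 rfl
    have hxB : x ∉ B := fun h => (hIn x (hBI x h)).2.2 rfl
    have h1 := sum_fam S p (insert 0 (insert x B)) (Ioc u v)
      (fun i => if i = 0 then v else if i = x then T else w i)
      (by
        intro i hi
        split_ifs with h0 hxi
        · rw [h0]; exact hSv
        · rw [hxi]; exact hST
        · rw [Finset.mem_insert, Finset.mem_insert] at hi
          exact hw3 i (by tauto))
      (by
        intro i hi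
        rw [Finset.mem_Ioc]
        split_ifs with h0 hxi
        · omega
        · omega
        · rw [Finset.mem_insert, Finset.mem_insert] at hi
          have h1 := hw1 i (by tauto)
          have h2 := hw2 i (by tauto)
          omega)
    rw [Finset.sum_insert h0B, Finset.sum_insert hxB, hp0] at h1
    exact h1
  have hBt : ∑ i ∈ B, p i ≤ t := by omega
  have hJne : J.Nonempty := by
    rw [Finset.nonempty_iff_ne_empty]
    intro h
    rw [h, Finset.sum_empty] at hBJ
    omega
  -- the jobs outside of the window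
  have hTi : ∀ i < n, o i 0 < T := fun i hi => by
    have := hoT0 i hi
    omega
  have hsex : ∀ i ∈ J, ∃ a, a < T ∧ S a = i ∧ ∀ c, a < c → c < T → S c ≠ i := by
    intro i hi
    have hin := (hIn i (hJI i hi)).1
    exact exists_prev S i T ⟨o i 0, hTi i hin, ho2 i hin 0⟩
  choose! s hs1 hs2 hs3 using hsex
  have heex : ∀ i ∈ J, ∃ b, T < b ∧ S b = i ∧ ∀ c, T < c → c < b → S c ≠ i := by
    intro i hi
    have hin := (hIn i (hJI i hi)).1
    exact exists_next S i T ⟨o i T, ho1 i hin T, ho2 i hin T⟩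
  choose! e he1 he2 he3 using heex
  have hJnot : ∀ i ∈ J, ∀ c, u < c → c < v → S c ≠ i := by
    intro i hi c h1 h2 h3
    exact (Finset.mem_filter.1 hi).2 ⟨c, h1, h2, h3⟩
  have hsu : ∀ i ∈ J, s i < u := by
    intro i hi
    have h1 := hs1 i hi
    have h2 := hs2 i hi
    rcases lt_trichotomy (s i) u with h | h | h
    · exact h
    · rw [h, hSu] at h2
      exact absurd h2.symm (hIn i (hJI i hi)).2.1
    · exact absurd h2 (hJnot i hi _ h (by omega))
  have hve : ∀ i ∈ J, v < e i := by
    intro i hi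
    have h1 := he1 i hi
    have h2 := he2 i hi
    rcases lt_trichotomy (e i) v with h | h | h
    · exact absurd h2 (hJnot i hi _ (by omega) h)
    · rw [h, hSv] at h2
      exact absurd h2.symm (hIn i (hJI i hi)).2.1
    · exact h
  have hgapi : ∀ i ∈ J, ∑ c ∈ Ioc (s i) (e i), p (S c) ≤ 2 * F := by
    intro i hi
    have h1 := hs1 i hi
    have h2 := he1 i hi
    rw [← hI i (hJI i hi)]
    apply (hfeas i (hIn i (hJI i hi)).1).2 (s i) (e i) (by omega) (hs2 i hi) (he2 i hi)
    intro c h3 h4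
    rcases lt_trichotomy c T with h | h | h
    · exact hs3 i hi c h3 h
    · rw [h, hST]
      exact (hIn i (hJI i hi)).2.2.symm
    · exact he3 i hi c h h4
  obtain ⟨i0, hi0, himin⟩ := Finset.exists_min_image J s hJne
  have hsplit : ∑ i ∈ J.erase i0, p i + p i0 = ∑ i ∈ J, p i := Finset.sum_erase_add J p hi0
  have hsgt : ∀ i ∈ J.erase i0, s i0 < s i := by
    intro i hi
    rw [Finset.mem_erase] at hi
    have h1 := himin i hi.2
    rcases Nat.lt_or_ge (s i0) (s i) with h | h
    · exact h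
    · exfalso
      apply hi.1
      have h2 : s i = s i0 := le_antisymm h h1
      rw [← hs2 i hi.2, ← hs2 i0 hi0, h2]
  have h0J : (0 : ℕ) ∉ J := fun h => (hIn 0 (hJI 0 h)).2.1 rfl
  have hno : ∀ c, s i0 < c → c < u → S c ≠ 0 := by
    intro c0 hc1 hc2 hc3
    have h0J' : (0 : ℕ) ∉ J.erase i0 := fun h => h0J (Finset.mem_of_mem_erase h)
    have h1 := sum_fam S p (insert 0 (J.erase i0)) ((Ioc (s i0) u).erase c0)
      (fun i => if i = 0 then u else s i)
      (by
        intro i hi
        split_ifs with h0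
        · rw [h0]; exact hSu
        · rw [Finset.mem_insert] at hi
          exact hs2 i (Finset.mem_of_mem_erase (hi.resolve_left h0)))
      (by
        intro i hi
        rw [Finset.mem_erase, Finset.mem_Ioc]
        split_ifs with h0
        · refine ⟨by omega, ?_, le_rfl⟩
          exact hsu i0 hi0
        · rw [Finset.mem_insert] at hi
          have hi' := hi.resolve_left h0
          have hiJ := Finset.mem_of_mem_erase hi'
          refine ⟨?_, hsgt i hi', (hsu i hiJ).le⟩
          intro h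
          have h2 := hs2 i hiJ
          rw [h, hc3] at h2
          exact h0 h2.symm)
    rw [Finset.sum_insert h0J', hp0] at h1
    have h2 : ∑ c ∈ (Ioc (s i0) u).erase c0, p (S c) + p (S c0) =
        ∑ c ∈ Ioc (s i0) u, p (S c) :=
      Finset.sum_erase_add _ (fun c => p (S c)) (by rw [Finset.mem_Ioc]; omega)
    rw [hc3, hp0] at h2
    have h3 : p i0 ≤ ∑ c ∈ Ioc v (e i0), p (S c) := by
      have h4 : e i0 ∈ Ioc v (e i0) := by
        rw [Finset.mem_Ioc]
        exact ⟨hve i0 hi0, le_rfl⟩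
      have h5 := Finset.single_le_sum (f := fun c => p (S c)) (fun _ _ => Nat.zero_le _) h4
      simp only [he2 i0 hi0] at h5
      exact h5
    have h4 := hgapi i0 hi0
    have h5 : ∑ c ∈ Ioc (s i0) (e i0), p (S c) = ∑ c ∈ Ioc (s i0) u, p (S c) +
        ∑ c ∈ Ioc u v, p (S c) + ∑ c ∈ Ioc v (e i0), p (S c) := by
      rw [Finset.sum_Ioc_consecutive _ (hsu i0 hi0).le (by omega),
        Finset.sum_Ioc_consecutive _ (by have := hsu i0 hi0; omega) (hve i0 hi0).le]
    omega
  have hu's : u' < s i0 := by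
    rcases lt_trichotomy u' (s i0) with h | h | h
    · exact h
    · have h1 := hs2 i0 hi0
      rw [← h, hSu'] at h1
      exact absurd h1.symm (hIn i0 (hJI i0 hi0)).2.1
    · exact absurd hSu' (hno u' h hu'u)
  have hlast : P + ∑ i ∈ J, p i ≤ ∑ c ∈ Ioc u' u, p (S c) := by
    have h1 := sum_fam S p (insert 0 J) (Ioc u' u) (fun i => if i = 0 then u else s i)
      (by
        intro i hi
        split_ifs with h0
        · rw [h0]; exact hSu
        · rw [Finset.mem_insert] at hi
          exact hs2 i (hi.resolve_left h0))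
      (by
        intro i hi
        rw [Finset.mem_Ioc]
        split_ifs with h0
        · exact ⟨hu'u, le_rfl⟩
        · rw [Finset.mem_insert] at hi
          have hiJ := hi.resolve_left h0
          have h2 := himin i hiJ
          have h3 := hsu i hiJ
          omega)
    rw [Finset.sum_insert h0J, hp0] at h1
    exact h1
  exact ⟨B, Finset.filter_subset _ _, by omega⟩

end Pool.Agent.H80.Pin2
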