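import Mathlib
import Pool.Agent.H80.Pin2.Half
import Pool.Agent.H80.Pin2.Nec

/-!
# The reduction from Partition: correctness, in terms of functions

Jobs: `0` with frequency `F` and duration `1`; `i + 1` (`i < l`) with frequency `2 F` and duration
`2 a_i`; `l + 1` with frequency `2 F` and duration `g`; `l + 2` with frequency `2 K F` and duration
`g`; here `g + s + 1 = F`, `s = ∑ a_i < g`.
-/

set_option autoImplicit false

namespace Pool.Agent.H80.Pin2

open Finset Pool.Agent.H80.Pin

/-- A solution of the Partition instance gives a feasible schedule. -/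
theorem red_forward (l F K g s : ℕ) (hK : 1 ≤ K) (a f p : ℕ → ℕ)
    (hf0 : f 0 = F) (hfi : ∀ i ≤ l, f (i + 1) = 2 * F) (hfx : f (l + 2) = 2 * K * F)
    (hp0 : p 0 = 1) (hpi : ∀ i < l, p (i + 1) = 2 * a i) (hpg : p (l + 1) = g)
    (hpx : p (l + 2) = g) (hs : s = ∑ i ∈ range l, a i) (hg : g + s + 1 = F)
    (B : ℕ → Prop) [DecidablePred B]
    (hB : ∑ i ∈ range l, (if B i then a i else 0) = ∑ i ∈ range l, (if B i then 0 else a i)) :
    ∃ S : ℕ → ℕ, (∀ t, S t < l + 3) ∧ ∀ i < l + 3, {t | S t = i}.Infinite ∧
      ∀ a b, a < b → S a = i → S b = i → (∀ c, a < c → c < b → S c ≠ i) →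
        ∑ t ∈ Ioc a b, p (S t) ≤ f i := by
  have hF : 0 < F := by omega
  have hsum : ∑ i ∈ range l, (if B i then a i else 0) +
      ∑ i ∈ range l, (if B i then 0 else a i) = s := by
    rw [hs, ← Finset.sum_add_distrib]
    apply Finset.sum_congr rfl
    intro i _
    split_ifs <;> omega
  have hpos : ∀ i < l + 3, 0 < f i := by
    intro i hi
    rcases i with _ | i
    · rw [hf0]; exact hF
    · rcases Nat.lt_or_ge i (l + 1) with h | h
      · rw [hfi i (by omega)]; omega
      · have : i = l + 1 := by omega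
        subst this
        rw [hfx]
        positivity
  have hdiv : ∀ i, i + 1 < l + 3 → f i ∣ f (i + 1) := by
    intro i hi
    rcases i with _ | i
    · rw [hf0, hfi 0 (by omega)]
      exact Dvd.intro_left _ rfl
    · rw [hfi i (by omega)]
      rcases Nat.lt_or_ge i l with h | h
      · rw [hfi (i + 1) (by omega)]
      · have : i = l := by omega
        subst this
        rw [hfx]
        exact ⟨K, by ring⟩
  have hk : ∀ i ≤ l, f (1 + i) / f 0 = 2 := by
    intro i hi
    rw [add_comm, hfi i hi, hf0]
    exact Nat.mul_div_cancel _ hF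
  have hkx : f (1 + (l + 1)) / f 0 = 2 * K := by
    have : 1 + (l + 1) = l + 2 := by ring
    rw [this, hfx, hf0]
    exact Nat.mul_div_cancel _ hF
  refine sched_of_pack (l + 3) (by omega) f p hpos hdiv 1 (by omega) (by simp [hp0, hf0]; omega)
    (fun i => if i = l then 1 else if i = l + 1 then 0 else if B i then 0 else 1) ?_ ?_
  · intro i hi
    rcases Nat.lt_or_ge i (l + 1) with h | h
    · rw [hk i (by omega)]
      split_ifs <;> omega
    · have : i = l + 1 := by omega
      subst this
      rw [hkx, if_neg (by omega), if_pos rfl]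
      positivity
  · intro b
    have e1 : l + 3 - 1 = l + 2 := by omega
    have e2 : f 0 - ∑ i ∈ range 1, p i = g + s := by
      simp [hf0, hp0]; omega
    rw [e1, e2]
    unfold load
    rw [Finset.sum_range_succ, Finset.sum_range_succ]
    simp only [hkx, hk l le_rfl, if_true]
    have e3 : 1 + (l + 1) = l + 2 := by ring
    have e4 : 1 + l = l + 1 := by ring
    rw [e3, e4, hpx, hpg, if_neg (by omega : ¬ l + 1 = l)]
    have e5 : ∑ i ∈ range l, (if b % (f (1 + i) / f 0) =
        (if i = l then 1 else if i = l + 1 then 0 else if B i then 0 else 1) then p (1 + i) else 0) =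
        ∑ i ∈ range l, (if b % 2 = (if B i then 0 else 1) then 2 * a i else 0) := by
      apply Finset.sum_congr rfl
      intro i hi
      rw [Finset.mem_range] at hi
      rw [hk i hi.le, if_neg (by omega : ¬ i = l), if_neg (by omega : ¬ i = l + 1), add_comm 1 i,
        hpi i hi]
    rw [e5]
    rcases Nat.mod_two_eq_zero_or_one b with h | h
    · have e6 : ∑ i ∈ range l, (if b % 2 = (if B i then 0 else 1) then 2 * a i else 0) =
          2 * ∑ i ∈ range l, (if B i then a i else 0) := by
        rw [Finset.mul_sum]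
        apply Finset.sum_congr rfl
        intro i _
        rw [h]
        split_ifs <;> simp_all
      rw [e6, if_neg (by omega : ¬ b % 2 = 1)]
      have e7 : (if b % (2 * K) = 0 then g else 0) ≤ g := by split_ifs <;> omega
      omega
    · have e6 : ∑ i ∈ range l, (if b % 2 = (if B i then 0 else 1) then 2 * a i else 0) =
          2 * ∑ i ∈ range l, (if B i then 0 else a i) := by
        rw [Finset.mul_sum]
        apply Finset.sum_congr rfl
        intro i _
        rw [h]
        split_ifs <;> simp_all
      have e7 : ¬ b % (2 * K) = 0 := by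
        intro h0
        have h1 : b % (2 * K) % 2 = b % 2 := Nat.mod_mod_of_dvd b (Dvd.intro _ rfl)
        rw [h0, h] at h1
        simp at h1
      rw [e6, if_pos h, if_neg e7]
      omega

/-- A feasible schedule gives a solution of the Partition instance. -/
theorem red_backward (l F g s : ℕ) (a f p : ℕ → ℕ)
    (hf0 : f 0 = F) (hfi : ∀ i ≤ l, f (i + 1) = 2 * F)
    (hp0 : p 0 = 1) (hpi : ∀ i < l, p (i + 1) = 2 * a i) (hpg : p (l + 1) = g)
    (hpx : p (l + 2) = g) (hs : s = ∑ i ∈ range l, a i) (hg : g + s + 1 = F) (hsg : s < g)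
    (h : ∃ S : ℕ → ℕ, (∀ t, S t < l + 3) ∧ ∀ i < l + 3, {t | S t = i}.Infinite ∧
      ∀ a b, a < b → S a = i → S b = i → (∀ c, a < c → c < b → S c ≠ i) →
        ∑ t ∈ Ioc a b, p (S t) ≤ f i) :
    ∃ B : Finset ℕ, ∑ i ∈ range l, (if i + 1 ∈ B then a i else 0) =
      ∑ i ∈ range l, (if i + 1 ∈ B then 0 else a i) := by
  classical
  obtain ⟨S, -, hS⟩ := h
  have hsumI : ∀ q : ℕ → ℕ, ∑ i ∈ (range (l + 3)).filter (fun i => i ≠ 0 ∧ i ≠ l + 2), q i =
      ∑ i ∈ range l, q (i + 1) + q (l + 1) := by
    intro q
    rw [Finset.sum_filter, Finset.sum_range_succ, Finset.sum_range_succ, Finset.sum_range_succ']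
    simp only [ne_eq, not_true_eq_false, and_false, if_false, false_and, add_zero]
    rw [if_pos (by omega)]
    congr 1
    apply Finset.sum_congr rfl
    intro i hi
    rw [Finset.mem_range] at hi
    rw [if_pos (by omega)]
  obtain ⟨B, hBI, hB⟩ := red_nec (l + 3) F 1 (g + s) s (l + 2) (by omega) f p S hS (by omega) hf0
    hp0 (by omega) (by omega) (by omega) (by rw [hpx]) (by omega)
    (by
      intro i hi
      rw [Finset.mem_filter, Finset.mem_range] at hi
      obtain ⟨j, rfl⟩ : ∃ j, i = j + 1 := ⟨i - 1, by omega⟩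
      exact hfi j (by omega))
    (by
      rw [hsumI, hpg]
      have e1 : ∑ i ∈ range l, p (i + 1) = 2 * s := by
        rw [hs, Finset.mul_sum]
        apply Finset.sum_congr rfl
        intro i hi
        rw [Finset.mem_range] at hi
        exact hpi i hi
      rw [e1]; omega)
  refine ⟨B, ?_⟩
  have hlB : l + 1 ∉ B := by
    intro hl
    have := Finset.single_le_sum (f := p) (fun _ _ => Nat.zero_le _) hl
    rw [hB, hpg] at this
    omega
  have hB2 : ∑ i ∈ B, p i = 2 * ∑ i ∈ range l, (if i + 1 ∈ B then a i else 0) := by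
    have e1 : ∑ i ∈ B, p i = ∑ i ∈ (range (l + 3)).filter (fun i => i ≠ 0 ∧ i ≠ l + 2),
        (if i ∈ B then p i else 0) := by
      rw [← Finset.sum_filter]
      congr 1
      ext i
      rw [Finset.mem_filter]
      exact ⟨fun hi => ⟨hBI hi, hi⟩, fun hi => hi.2⟩
    rw [e1, hsumI, if_neg hlB, add_zero, Finset.mul_sum]
    apply Finset.sum_congr rfl
    intro i hi
    rw [Finset.mem_range] at hi
    rw [hpi i hi]
    split_ifs <;> omega
  have hsum : ∑ i ∈ range l, (if i + 1 ∈ B then a i else 0) +
      ∑ i ∈ range l, (if i + 1 ∈ B then 0 else a i) = s := by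
    rw [hs, ← Finset.sum_add_distrib]
    apply Finset.sum_congr rfl
    intro i _
    split_ifs <;> omega
  omega

end Pool.Agent.H80.Pin2
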