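import Mathlib
import Pool.Agent.H80.Pin2.Code
import Pool.Agent.H80.Pin2.Red

/-!
# Instances as functions on the naturals, and the reduction
-/

set_option autoImplicit false

namespace Pool.Agent.H80.Pin2

open Pool.Agent.H80.Pin Finset

/-- jobs as functions on the naturals -/
def fN (V : Inst) (i : ℕ) : ℕ := (V.jobs.getD i (0, 0)).1

/-- jobs as functions on the naturals -/
def pN (V : Inst) (i : ℕ) : ℕ := (V.jobs.getD i (0, 0)).2

theorem fN_eq (V : Inst) (i : Fin V.jobs.length) : fN V i = V.freq i := by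
  simp [fN, Inst.freq]

theorem pN_eq (V : Inst) (i : Fin V.jobs.length) : pN V i = V.dur i := by
  simp [pN, Inst.dur]

theorem feasible_iff (V : Inst) : V.Feasible ↔ ∃ S : ℕ → ℕ, (∀ t, S t < V.jobs.length) ∧
    ∀ i < V.jobs.length, {t | S t = i}.Infinite ∧
      ∀ a b, a < b → S a = i → S b = i → (∀ c, a < c → c < b → S c ≠ i) →
        ∑ t ∈ Ioc a b, pN V (S t) ≤ fN V i := by
  constructor
  · rintro ⟨S, hS⟩
    refine ⟨fun t => (S t : ℕ), fun t => (S t).2, ?_⟩
    intro i hi
    have h := hS ⟨i, hi⟩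
    unfold Inst.cost at h
    have hset : {t | ((S t : ℕ)) = i} = {t | S t = ⟨i, hi⟩} := by
      ext t
      simp only [Set.mem_ofPred_eq, Fin.ext_iff]
    split_ifs at h with hfin
    · exact absurd h (by simp)
    · refine ⟨by rw [hset]; exact hfin, ?_⟩
      intro a b hab ha hb hc
      have hcon : Consec S ⟨i, hi⟩ a b := by
        refine ⟨hab, Fin.ext ha, Fin.ext hb, ?_⟩
        intro c h1 h2 h3
        exact hc c h1 h2 (congrArg Fin.val h3)
      have h1 : ((∑ t ∈ Ioc a b, V.dur (S t) : ℕ) : ℕ∞) ≤ (V.freq ⟨i, hi⟩ : ℕ∞) := by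
        refine le_trans ?_ h
        exact le_iSup_of_le a (le_iSup_of_le b (le_iSup_of_le hcon le_rfl))
      have h2 : (∑ t ∈ Ioc a b, V.dur (S t)) ≤ V.freq ⟨i, hi⟩ := by exact_mod_cast h1
      rw [← fN_eq] at h2
      calc ∑ t ∈ Ioc a b, pN V (S t) = ∑ t ∈ Ioc a b, V.dur (S t) :=
            Finset.sum_congr rfl (fun t _ => pN_eq V (S t))
        _ ≤ fN V i := h2
  · rintro ⟨S, hS, h⟩
    refine ⟨fun t => ⟨S t, hS t⟩, ?_⟩
    rintro ⟨i, hi⟩
    obtain ⟨h1, h2⟩ := h i hi
    unfold Inst.cost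
    have hset : {t | (⟨S t, hS t⟩ : Fin V.jobs.length) = ⟨i, hi⟩} = {t | S t = i} := by
      ext t
      simp only [Set.mem_ofPred_eq, Fin.ext_iff]
    rw [if_neg (by rw [hset]; exact h1)]
    refine iSup_le fun a => iSup_le fun b => iSup_le fun hcon => ?_
    obtain ⟨hab, ha, hb, hc⟩ := hcon
    have h3 := h2 a b hab (by simpa [Fin.ext_iff] using ha) (by simpa [Fin.ext_iff] using hb)
      (fun c h4 h5 h6 => hc c h4 h5 (Fin.ext h6))
    have h4 : (∑ t ∈ Ioc a b, V.dur ⟨S t, hS t⟩) ≤ V.freq ⟨i, hi⟩ := by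
      rw [← fN_eq]
      refine le_trans (le_of_eq ?_) h3
      exact Finset.sum_congr rfl (fun t _ => (pN_eq V ⟨S t, hS t⟩).symm)
    exact_mod_cast h4

theorem tot_eq (V : Inst) (f1 : ℕ) : tot f1 V.jobs =
    ∑ i ∈ range V.jobs.length, if fN V i = f1 then pN V i else 0 := by
  unfold tot
  rw [← Fin.sum_univ_eq_sum_range (fun i => if fN V i = f1 then pN V i else 0)]
  rw [← List.sum_ofFn]
  congr 1
  apply List.ext_getElem
  · simp
  · intro i h1 h2
    simp [fN, pN]

theorem density_eq (V : Inst) : V.density =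
    ∑ i ∈ range V.jobs.length, (pN V i : ℚ) / fN V i := by
  unfold Inst.density
  rw [← Fin.sum_univ_eq_sum_range (fun i => (pN V i : ℚ) / fN V i)]
  apply Finset.sum_congr rfl
  intro i _
  rw [fN_eq, pN_eq]

theorem density_list (V : Inst) : V.density = (V.jobs.map fun j => (j.2 : ℚ) / j.1).sum := by
  rw [density_eq, ← Fin.sum_univ_eq_sum_range (fun i => (pN V i : ℚ) / fN V i), ← List.sum_ofFn]
  congr 1
  apply List.ext_getElem
  · simp
  · intro i h1 h2
    simp [fN, pN]

/-! ### The algorithm -/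

theorem alg_half : ∃ A : Inst → Bool,
    Nonempty (Turing.TM2ComputableInPolyTime Inst.encode Computability.encodeBool A) ∧
    ∀ V : Inst, V.FreqDiv → V.density ≤ 1 / 2 → (A V = true ↔ V.Feasible) := by
  refine ⟨fun V => run (Computability.encodeNat (fN V 0)) (Computability.encodeNat (fN V 0)) V.jobs,
    ?_, ?_⟩
  · apply Pool.Agent.H80.Pin.polyTime (fun V : Inst => V.jobs) (fun V => V.jobs_ne_nil)
    intro V j L hjL
    have : fN V 0 = j.1 := by simp [fN, hjL]
    rw [this, hjL]
  · intro V hdiv hdens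
    have hn : 0 < V.jobs.length := List.length_pos_of_ne_nil V.jobs_ne_nil
    have hmem : ∀ i (hi : i < V.jobs.length), (fN V i, pN V i) ∈ V.jobs := by
      intro i hi
      have : (fN V i, pN V i) = V.jobs[i] := by simp [fN, pN, hi]
      rw [this]
      exact List.getElem_mem hi
    have hf : ∀ i < V.jobs.length, 0 < fN V i := fun i hi => (V.jobs_pos _ (hmem i hi)).1
    have hp : ∀ i < V.jobs.length, 0 < pN V i := fun i hi => (V.jobs_pos _ (hmem i hi)).2
    have hdiv' : ∀ i, i + 1 < V.jobs.length → fN V i ∣ fN V (i + 1) := by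
      intro i hi
      have := hdiv i hi
      rw [← fN_eq, ← fN_eq] at this
      exact this
    rw [density_eq] at hdens
    have hge : ∀ j ∈ V.jobs, fN V 0 ≤ j.1 := by
      intro j hj
      obtain ⟨i, hi, rfl⟩ := List.getElem_of_mem hj
      have h0 : fN V 0 = (V.jobs[0]).1 := by simp [fN, hn]
      rw [h0]
      rcases Nat.eq_zero_or_pos i with h | h
      · subst h; exact le_rfl
      · exact (List.pairwise_iff_getElem.1 V.jobs_sorted) 0 i hn hi h
    have hspec := run_spec (fN V 0) V.jobs (Computability.encodeNat (fN V 0)) hge V.jobs_sorted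
    rw [val_encodeNat, tot_eq] at hspec
    simp only
    rw [hspec, feasible_iff]
    constructor
    · rintro ⟨h0, h⟩
      apply suff_half V.jobs.length hn (fN V) (pN V) hf hp hdiv' _ _ h0
      · have h1 : (0 : ℚ) ≤ ((∑ i ∈ range V.jobs.length,
            if fN V i = fN V 0 then pN V i else 0 : ℕ) : ℚ) / fN V 0 := by positivity
        linarith
      · intro j hj hjf
        exact h _ (hmem j hj) hjf
    · rintro ⟨S, -, hS⟩
      constructor
      · -- the total duration of the jobs of smallest frequency is at most the frequency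
        have hFq : (0 : ℚ) < fN V 0 := by exact_mod_cast hf 0 hn
        have h1 : ((∑ i ∈ range V.jobs.length, if fN V i = fN V 0 then pN V i else 0 : ℕ) : ℚ)
            / fN V 0 ≤ ∑ i ∈ range V.jobs.length, (pN V i : ℚ) / fN V i := by
          push_cast
          rw [Finset.sum_div]
          apply Finset.sum_le_sum
          intro i _
          split_ifs with h
          · rw [h]
          · rw [zero_div]; positivity
        have h2 : ((∑ i ∈ range V.jobs.length, if fN V i = fN V 0 then pN V i else 0 : ℕ) : ℚ)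
            / fN V 0 ≤ 1 := by linarith
        rw [div_le_one hFq] at h2
        exact_mod_cast h2
      · intro j hj hjf
        obtain ⟨i, hi, rfl⟩ := List.getElem_of_mem hj
        have h1 : fN V i = (V.jobs[i]).1 := by simp [fN, hi]
        have h2 : pN V i = (V.jobs[i]).2 := by simp [pN, hi]
        rw [← h2]
        apply nec V.jobs.length hn (fN V) (pN V) S hS i hi
        rw [h1]
        exact hjf

/-! ### The reduction -/

section

variable (κ : ℕ) (P : PartInst)

theorem pow_dg : 2 ^ dg κ P.nums = 2 * 2 ^ κ * 2 ^ (encodeNums P.nums).length := by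
  unfold dg
  rw [pow_succ, pow_add]
  ring

theorem sum_small : 2 * 2 ^ κ * (1 + P.nums.sum) ≤ 2 ^ dg κ P.nums := by
  rw [pow_dg]
  exact Nat.mul_le_mul_left _ (sum_lt P.nums)

theorem sum_small' : 2 * (1 + P.nums.sum) ≤ 2 ^ dg κ P.nums := by
  refine le_trans ?_ (sum_small κ P)
  have : 1 ≤ 2 ^ κ := Nat.one_le_two_pow
  nlinarith [Nat.zero_le P.nums.sum]

/-- the reduction -/
def red : Inst where
  jobs := redJobs κ P.nums
  jobs_ne_nil := by simp [redJobs]
  jobs_pos := by
    intro j hj
    have h1 := sum_small' κ P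
    unfold redJobs at hj
    rw [List.mem_cons, List.mem_append, List.mem_map, List.mem_cons, List.mem_singleton] at hj
    rcases hj with rfl | ⟨a, ha, rfl⟩ | rfl | rfl
    · exact ⟨by positivity, by norm_num⟩
    · have := P.pos a ha
      exact ⟨by positivity, by omega⟩
    · exact ⟨by positivity, by simp only; omega⟩
    · exact ⟨by positivity, by simp only; omega⟩
  jobs_sorted := by
    have h2 : (2:ℕ) ^ dg κ P.nums ≤ 2 ^ (dg κ P.nums + 1) :=
      Nat.pow_le_pow_right (by norm_num) (by omega)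
    have h3 : (2:ℕ) ^ (dg κ P.nums + 1) ≤ 2 ^ (dg κ P.nums + (κ + 1)) :=
      Nat.pow_le_pow_right (by norm_num) (by omega)
    unfold redJobs
    rw [List.pairwise_cons, List.pairwise_append]
    refine ⟨?_, ?_, ?_, ?_⟩
    · intro j hj
      rw [List.mem_append, List.mem_map, List.mem_cons, List.mem_singleton] at hj
      rcases hj with ⟨a, ha, rfl⟩ | rfl | rfl
      · exact h2
      · exact h2
      · exact h2.trans h3
    · rw [List.pairwise_map]
      rw [List.pairwise_iff_getElem]
      intro i j _ _ _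
      exact le_rfl
    · simp [h3]
    · intro x hx y hy
      rw [List.mem_map] at hx
      obtain ⟨a, ha, rfl⟩ := hx
      rw [List.mem_cons, List.mem_singleton] at hy
      rcases hy with rfl | rfl
      · exact le_rfl
      · exact h3

theorem red_length : (red κ P).jobs.length = P.nums.length + 3 := by
  simp [red, redJobs]

theorem red_getD_zero : (red κ P).jobs.getD 0 (0, 0) = (2 ^ dg κ P.nums, 1) := by
  simp [red, redJobs]

theorem red_getD_mid {i : ℕ} (hi : i < P.nums.length) : (red κ P).jobs.getD (i + 1) (0, 0) =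
    (2 ^ (dg κ P.nums + 1), 2 * P.nums.getD i 0) := by
  simp [red, redJobs, hi, List.getElem?_append_left]

theorem red_getD_g : (red κ P).jobs.getD (P.nums.length + 1) (0, 0) =
    (2 ^ (dg κ P.nums + 1), 2 ^ dg κ P.nums - 1 - P.nums.sum) := by
  simp [red, redJobs]

theorem red_getD_x : (red κ P).jobs.getD (P.nums.length + 2) (0, 0) =
    (2 ^ (dg κ P.nums + (κ + 1)), 2 ^ dg κ P.nums - 1 - P.nums.sum) := by
  simp [red, redJobs]

theorem red_f0 : fN (red κ P) 0 = 2 ^ dg κ P.nums := by rw [fN, red_getD_zero]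

theorem red_p0 : pN (red κ P) 0 = 1 := by rw [pN, red_getD_zero]

theorem red_fi {i : ℕ} (hi : i ≤ P.nums.length) :
    fN (red κ P) (i + 1) = 2 * 2 ^ dg κ P.nums := by
  rw [fN]
  rcases Nat.lt_or_ge i P.nums.length with h | h
  · rw [red_getD_mid κ P h]
    simp only
    rw [pow_succ]; ring
  · have : i = P.nums.length := le_antisymm hi h
    subst this
    rw [red_getD_g]
    simp only
    rw [pow_succ]; ring

theorem red_fx : fN (red κ P) (P.nums.length + 2) = 2 * 2 ^ κ * 2 ^ dg κ P.nums := by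
  rw [fN, red_getD_x]
  simp only
  rw [pow_add, pow_succ]; ring

theorem red_pi {i : ℕ} (hi : i < P.nums.length) :
    pN (red κ P) (i + 1) = 2 * P.nums.getD i 0 := by
  rw [pN, red_getD_mid κ P hi]

theorem red_pg : pN (red κ P) (P.nums.length + 1) = 2 ^ dg κ P.nums - 1 - P.nums.sum := by
  rw [pN, red_getD_g]

theorem red_px : pN (red κ P) (P.nums.length + 2) = 2 ^ dg κ P.nums - 1 - P.nums.sum := by
  rw [pN, red_getD_x]

theorem sum_getD (L : List ℕ) : L.sum = ∑ i ∈ range L.length, L.getD i 0 := by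
  rw [← Fin.sum_univ_eq_sum_range (fun i => L.getD i 0), ← List.sum_ofFn]
  congr 1
  apply List.ext_getElem
  · simp
  · intro i h1 h2
    simp

theorem red_freqDiv : (red κ P).FreqDiv := by
  intro i hi
  rw [← fN_eq, ← fN_eq]
  simp only
  rw [red_length] at hi
  rcases i with _ | i
  · rw [red_f0, red_fi κ P (by omega)]
    exact Dvd.intro_left _ rfl
  · rw [red_fi κ P (by omega)]
    rcases Nat.lt_or_ge i P.nums.length with h | h
    · rw [red_fi κ P (by omega)]
    · have : i = P.nums.length := by omega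
      subst this
      have h1 : fN (red κ P) (P.nums.length + 1 + 1) = _ := red_fx κ P
      rw [h1]
      exact ⟨2 ^ κ, by ring⟩

theorem red_density : (red κ P).density ≤ 1 / 2 + 1 / 2 ^ κ := by
  set F : ℕ := 2 ^ dg κ P.nums with hF
  set s := P.nums.sum with hs
  have hsm := sum_small κ P
  have hsm' := sum_small' κ P
  rw [← hF, ← hs] at hsm hsm'
  have hFpos : (0 : ℚ) < F := by
    have : 0 < F := by rw [hF]; positivity
    exact_mod_cast this
  have hK : (0 : ℚ) < 2 ^ κ := by positivity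
  have hg : ((F - 1 - s : ℕ) : ℚ) = F - 1 - s := by
    rw [Nat.cast_sub (by omega), Nat.cast_sub (by omega)]
    simp
  have hmid : (P.nums.map (fun a => ((2 * a : ℕ) : ℚ) / ((2 ^ (dg κ P.nums + 1) : ℕ) : ℚ))).sum =
      s / F := by
    have : ∀ L : List ℕ, (L.map (fun a => ((2 * a : ℕ) : ℚ) /
        ((2 ^ (dg κ P.nums + 1) : ℕ) : ℚ))).sum = (L.sum : ℚ) / F := by
      intro L
      induction L with
      | nil => simp
      | cons a L ih =>
        rw [List.map_cons, List.sum_cons, ih, List.sum_cons, hF, pow_succ]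
        push_cast
        field_simp
    rw [this, hs]
  have hd : (red κ P).density = 1 / F + (s / F + ((F - 1 - s) / (2 * F) +
      (F - 1 - s) / (2 * 2 ^ κ * F))) := by
    rw [density_list]
    show ((redJobs κ P.nums).map fun j => (j.2 : ℚ) / j.1).sum = _
    unfold redJobs
    rw [List.map_cons, List.sum_cons, List.map_append, List.sum_append, List.map_map]
    have e1 : ((fun j : ℕ × ℕ => (j.2 : ℚ) / j.1) ∘ fun a => (2 ^ (dg κ P.nums + 1), 2 * a)) =
        fun a => ((2 * a : ℕ) : ℚ) / ((2 ^ (dg κ P.nums + 1) : ℕ) : ℚ) := by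
      funext a
      rfl
    rw [e1, hmid]
    simp only [List.map_cons, List.map_nil, List.sum_cons, List.sum_nil, add_zero]
    rw [← hF, ← hs, hg]
    have e2 : ((2 ^ (dg κ P.nums + 1) : ℕ) : ℚ) = 2 * F := by
      rw [hF, pow_succ]; push_cast; ring
    have e3 : ((2 ^ (dg κ P.nums + (κ + 1)) : ℕ) : ℚ) = 2 * 2 ^ κ * F := by
      rw [hF, pow_add, pow_succ]; push_cast; ring
    rw [e2, e3]
    simp
  rw [hd]
  have hsm2 : (2 * 2 ^ κ * (1 + s) : ℚ) ≤ F := by exact_mod_cast hsm
  have hs0 : (0 : ℚ) ≤ s := by positivity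
  have e4 : (1 : ℚ) / F + (s / F + ((F - 1 - s) / (2 * F) + (F - 1 - s) / (2 * 2 ^ κ * F))) =
      1 / 2 + ((1 + s) * 2 ^ κ + (F - 1 - s)) / (2 * 2 ^ κ * F) := by
    field_simp
    ring
  rw [e4]
  have e5 : ((1 + (s : ℚ)) * 2 ^ κ + ((F : ℚ) - 1 - s)) / (2 * 2 ^ κ * F) ≤ 1 / 2 ^ κ := by
    rw [div_le_div_iff₀ (by positivity) hK]
    have : (1 + (s : ℚ)) * 2 ^ κ + ((F : ℚ) - 1 - s) ≤ 2 * F := by nlinarith
    calc ((1 + (s : ℚ)) * 2 ^ κ + ((F : ℚ) - 1 - s)) * 2 ^ κ ≤ 2 * F * 2 ^ κ :=
          mul_le_mul_of_nonneg_right this hK.le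
      _ = 1 * (2 * 2 ^ κ * F) := by ring
  linarith

theorem red_iff : (red κ P).Feasible ↔ P.Solvable := by
  classical
  have hsm' := sum_small' κ P
  rw [feasible_iff, red_length]
  have hs := sum_getD P.nums
  constructor
  · intro h
    obtain ⟨B, hB⟩ := red_backward P.nums.length (2 ^ dg κ P.nums)
      (2 ^ dg κ P.nums - 1 - P.nums.sum) P.nums.sum (fun i => P.nums.getD i 0) (fN (red κ P))
      (pN (red κ P)) (red_f0 κ P) (fun i hi => red_fi κ P hi) (red_p0 κ P)
      (fun i hi => red_pi κ P hi) (red_pg κ P) (red_px κ P) hs (by omega) (by omega) h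
    refine ⟨Finset.univ.filter (fun i : Fin P.nums.length => (i : ℕ) + 1 ∈ B), ?_⟩
    rw [Finset.compl_filter, Finset.sum_filter, Finset.sum_filter]
    have e1 : ∑ i : Fin P.nums.length, (if (i : ℕ) + 1 ∈ B then P.nums.get i else 0) =
        ∑ i ∈ range P.nums.length, (if i + 1 ∈ B then P.nums.getD i 0 else 0) := by
      rw [← Fin.sum_univ_eq_sum_range (fun i => if i + 1 ∈ B then P.nums.getD i 0 else 0)]
      apply Finset.sum_congr rfl
      intro i _
      simp
    have e2 : ∑ i : Fin P.nums.length, (if ¬ (i : ℕ) + 1 ∈ B then P.nums.get i else 0) =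
        ∑ i ∈ range P.nums.length, (if i + 1 ∈ B then 0 else P.nums.getD i 0) := by
      rw [← Fin.sum_univ_eq_sum_range (fun i => if i + 1 ∈ B then 0 else P.nums.getD i 0)]
      apply Finset.sum_congr rfl
      intro i _
      simp
    rw [e1, e2]
    exact hB
  · rintro ⟨B, hB⟩
    refine red_forward P.nums.length (2 ^ dg κ P.nums) (2 ^ κ)
      (2 ^ dg κ P.nums - 1 - P.nums.sum) P.nums.sum Nat.one_le_two_pow
      (fun i => P.nums.getD i 0) (fN (red κ P))
      (pN (red κ P)) (red_f0 κ P) (fun i hi => red_fi κ P hi) (red_fx κ P) (red_p0 κ P)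
      (fun i hi => red_pi κ P hi) (red_pg κ P) (red_px κ P) hs (by omega)
      (fun i => ∃ h : i < P.nums.length, (⟨i, h⟩ : Fin P.nums.length) ∈ B) ?_
    rw [← Fin.sum_univ_eq_sum_range (fun i => if ∃ h : i < P.nums.length,
        (⟨i, h⟩ : Fin P.nums.length) ∈ B then P.nums.getD i 0 else 0),
      ← Fin.sum_univ_eq_sum_range (fun i => if ∃ h : i < P.nums.length,
        (⟨i, h⟩ : Fin P.nums.length) ∈ B then 0 else P.nums.getD i 0)]
    have e1 : ∑ i ∈ B, P.nums.get i = ∑ i : Fin P.nums.length,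
        (if ∃ h : (i : ℕ) < P.nums.length, (⟨i, h⟩ : Fin P.nums.length) ∈ B
          then P.nums.getD i 0 else 0) := by
      rw [← Finset.sum_filter]
      apply Finset.sum_congr
      · ext i
        simp
      · intro i _
        simp
    have e2 : ∑ i ∈ Bᶜ, P.nums.get i = ∑ i : Fin P.nums.length,
        (if ∃ h : (i : ℕ) < P.nums.length, (⟨i, h⟩ : Fin P.nums.length) ∈ B
          then 0 else P.nums.getD i 0) := by
      have : ∀ i : Fin P.nums.length,
          (if ∃ h : (i : ℕ) < P.nums.length, (⟨i, h⟩ : Fin P.nums.length) ∈ B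
          then 0 else P.nums.getD i 0) = if i ∈ Bᶜ then P.nums.get i else 0 := by
        intro i
        by_cases h : i ∈ B
        · simp [h]
        · simp [h]
      simp only [this]
      rw [← Finset.sum_filter]
      apply Finset.sum_congr
      · ext i
        simp
      · intro i _
        rfl
    rw [← e1, ← e2]
    exact hB

end

theorem hard_half (ε : ℚ) (hε : 0 < ε) : ∃ f : PartInst → Inst,
    Nonempty (Turing.TM2ComputableInPolyTime PartInst.encode Inst.encode f) ∧
    ∀ P : PartInst, (f P).FreqDiv ∧ (f P).density ≤ 1 / 2 + ε ∧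
      ((f P).Feasible ↔ P.Solvable) := by
  obtain ⟨κ, hκ⟩ := exists_pow_lt_of_lt_one hε (by norm_num : (1 / 2 : ℚ) < 1)
  refine ⟨red κ, ?_, fun P => ⟨red_freqDiv κ P, ?_, red_iff κ P⟩⟩
  · exact polyTime (κ := κ) (fun P : PartInst => P.nums) Inst.encode (red κ)
      (fun P => (outp_eq κ P.nums P.pos).symm)
  · have h1 := red_density κ P
    have h2 : (1 / 2 : ℚ) ^ κ = 1 / 2 ^ κ := by rw [div_pow, one_pow]
    rw [h2] at hκ
    linarith

end Pool.Agent.H80.Pin2
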